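import Pool.Agent.H567R2.MO.Defs

/-!
Multiple mixing of affine skew products with non-commuting linear parts: definitions.
-/

namespace H567MM

open MeasureTheory

noncomputable section

/-- the affine skew product `(x, y) ↦ (S x, α(x) * (y ∘ φ(x)))` -/
def naskew {X R M : Type*} [CommRing R] [AddCommGroup M] [Module R M] (S : X → X)
    (φ : X → (M ≃ₗ[R] M)) (α : X → Dual M) (z : X × Dual M) : X × Dual M :=
  (S z.1, α z.1 * nact (φ z.1) z.2)

/-- the translation part of the iterates of `naskew` -/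
def nac {X R M : Type*} [CommRing R] [AddCommGroup M] [Module R M] (S : X → X)
    (φ : X → (M ≃ₗ[R] M)) (α : X → Dual M) : ℕ → X → Dual M
  | 0, _ => 1
  | n + 1, x => α (S^[n] x) * nact (φ (S^[n] x)) (nac S φ α n x)

/-- equivariant measurable fields of submodules -/
def IsFld {X R M : Type*} [MeasurableSpace X] [CommRing R] [AddCommGroup M] [Module R M]
    (μ : Measure X) (S : X → X) (φ : X → (M ≃ₗ[R] M)) (L : X → Submodule R M) : Prop :=
  (∀ m : M, MeasurableSet {x | m ∈ L x}) ∧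
    ∀ᵐ x ∂μ, (L (S x)).map (φ x : M →ₗ[R] M) = L x

/-- mixing of multiplicity `k` on the tensor functions with characters in the field `L` -/
def NPL {X R M : Type*} [MeasurableSpace X] [CommRing R] [AddCommGroup M] [Module R M]
    (μ : Measure X) (ν : Measure (Dual M)) (S : X → X) (φ : X → (M ≃ₗ[R] M))
    (α : X → Dual M) (k : ℕ) (L : X → Submodule R M) : Prop :=
  ∀ (A : Fin (k + 1) → Set X) (m : Fin (k + 1) → M), (∀ j, MeasurableSet (A j)) →
    (∀ j, ∀ x ∈ A j, m j ∈ L x) → ∀ ε : ℝ, 0 < ε → ∃ G : ℕ, ∀ n : Fin (k + 1) → ℕ, n 0 = 0 →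
    (∀ j : Fin k, n j.castSucc + G ≤ n j.succ) →
    ‖∫ z, ∏ j, ten (A j) (m j) ((naskew S φ α)^[n j] z) ∂(μ.prod ν) -
      ∏ j, ∫ z, ten (A j) (m j) z ∂(μ.prod ν)‖ < ε

/-- auxiliary functions -/
def nth {X R M : Type*} [CommRing R] [AddCommGroup M] [Module R M] (S : X → X)
    (φ : X → (M ≃ₗ[R] M)) (α : X → Dual M) (L : X → Submodule R M) (A : Set X) (m : M)
    (t t' : ℕ) (z : X × Dual M) : ℂ :=
  {x | coc S φ t x m - coc S φ t' x m ∈ L x}.indicator (fun _ => (1 : ℂ)) z.1 *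
    (ten A m ((naskew S φ α)^[t] z) * (starRingEnd ℂ) (ten A m ((naskew S φ α)^[t'] z)))

/-- equivariant random finite sets of cosets of the field `L` (`x ∈ B m` means: the coset
`m + L x` belongs to the set at `x`) -/
def CFam {X R M : Type*} [MeasurableSpace X] [CommRing R] [AddCommGroup M] [Module R M]
    (μ : Measure X) (S : X → X) (φ : X → (M ≃ₗ[R] M)) (L : X → Submodule R M)
    (B : M → Set X) (f : ℕ) : Prop :=
  (∀ m, MeasurableSet (B m)) ∧
    (∀ᵐ x ∂μ, ∀ m m', m - m' ∈ L x → (x ∈ B m ↔ x ∈ B m')) ∧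
    (∀ᵐ x ∂μ, ∀ m, (x ∈ B (φ x m) ↔ S x ∈ B m)) ∧
    (∀ᵐ x ∂μ, ∃ Z : Finset M, Z.card ≤ f ∧ ∀ m, x ∈ B m → ∃ z ∈ Z, m - z ∈ L x)

end

end H567MM
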