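import Pool.Agent.H567R2.MQ.Stubs

/-! M4: assembly of the result. -/

namespace H567MM.P

open MeasureTheory Filter Topology

theorem main4 {X R M : Type*} [MeasurableSpace X] (μ : Measure X)
    [IsProbabilityMeasure μ] (S : X → X) (hS : MeasurePreserving S μ μ)
    [CommRing R] [IsNoetherianRing R] [AddCommGroup M] [Module R M] [Module.Finite R M]
    [Countable M] (φ : X → (M ≃ₗ[R] M)) (hφ : ∀ m m' : M, MeasurableSet {x | φ x m = m'})
    (α : X → Dual M) (hα : Measurable α)
    (ν : Measure (Dual M)) (hν : IsHaarProb ν) (k : ℕ) (hk : MixOrd μ S k)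
    (h : Ergodic (Prod.map (naskew S φ α) (naskew S φ α)) ((μ.prod ν).prod (μ.prod ν)) ∨
      Ergodic (nskew S φ) (μ.prod ν)) : MixOrd (μ.prod ν) (naskew S φ α) k := by
  have hνp : IsProbabilityMeasure ν := hν.1
  rcases k with _ | k
  · exact mixOrd_zero _ _
  have hmix : MixOrd μ S 1 := mixOrd_one μ S k hk
  have herg : Ergodic S μ := ergodic_of_mix μ S hS hmix
  have hT : MeasurePreserving (naskew S φ α) (μ.prod ν) (μ.prod ν) :=
    naskew_mp μ S hS φ hφ α hα ν hν
  have hbot : NPL μ ν S φ α (k + 1) (fun _ => (⊥ : Submodule R M)) :=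
    npl_bot μ S hS φ α ν hν (k + 1) hk
  have htop : NPL μ ν S φ α (k + 1) (fun _ => (⊤ : Submodule R M)) := by
    rcases h with h | h
    · have hwm : ∀ (A : Set X) (m : M), MeasurableSet A → m ≠ 0 →
          CorrZero (μ.prod ν) (naskew S φ α) (ten A m) := fun A m hA hm =>
        corr_zero_of_wm (μ.prod ν) (naskew S φ α) hT h (ten A m) (FF_ten_measurable A hA m)
          (FF_ten_norm A m) (ten_integral_ne μ ν hν A hA m hm)
      obtain ⟨L, hL, hPL, hmax⟩ := exists_max_fld μ S herg φ hφ α ν (k + 1) hbot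
      refine npl_top μ S hS hmix φ hφ α hα ν hν (k + 1) hk L hL hPL fun B f hB => ?_
      have h1 := hmax _ (nstep_fld μ S hS φ hφ L hL B f hB).1
        (nstep μ S hS φ hφ α hα ν hν hwm (k + 1) L hL hPL B f hB)
        (ae_of_all _ fun x => le_sup_left)
      filter_upwards [h1] with x hx m hm
      rw [← hx]
      exact Submodule.mem_sup_right (Submodule.subset_span hm)
    · intro A m hA _ ε hε
      by_cases hm : m = 0
      · exact hbot A m hA (fun j x _ => by rw [hm]; exact Submodule.zero_mem _) ε hε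
      · obtain ⟨G, hG⟩ := small_module2 μ S hS hmix φ hφ
          (fun v hv => ntrans_of_ergodic μ S hS φ hφ ν hν h v hv) (k + 1) hk m hm ε hε
        refine ⟨G, fun n h0 hn => ?_⟩
        have hz : ∏ j, ∫ z, ten (A j) (m j) z ∂(μ.prod ν) = 0 := by
          obtain ⟨j, hj⟩ := Function.ne_iff.1 hm
          exact Finset.prod_eq_zero (Finset.mem_univ j) (ten_integral_ne μ ν hν _ (hA j) _ hj)
        rw [hz, sub_zero]
        refine (nten_int_le μ S hS φ hφ α hα ν hν A hA m n).trans_lt ?_
        exact (measureReal_mono (fun x hx => hx.2)).trans_lt (hG n h0 hn)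
  exact mix_of_ten μ ν (naskew S φ α) hT (k + 1) fun A m hA ε hε =>
    htop A m hA (fun _ _ _ => Submodule.mem_top) ε hε

end H567MM.P
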