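import Pool.Agent.H567R2.MQ.Stubs
import Pool.Agent.H567R2.MMF.SP

/-! # NA: iterates of the affine skew product with non-commuting linear parts -/

namespace H567MM.P

open MeasureTheory Filter Topology

section
variable {R M : Type*} [CommRing R] [AddCommGroup M] [Module R M]

theorem NAq_aux_apply (g : M ≃ₗ[R] M) (y : Dual M) (m : M) : nact g y m = y (g m) := rfl

theorem NAq_aux_mul (g : M ≃ₗ[R] M) (y z : Dual M) : nact g (y * z) = nact g y * nact g z := by
  ext m
  rw [AddChar.mul_apply, NAq_aux_apply, NAq_aux_apply, NAq_aux_apply, AddChar.mul_apply]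

theorem NAq_aux_comp (g g' : M ≃ₗ[R] M) (y : Dual M) : nact g (nact g' y) = nact (g' * g) y := by
  ext m
  rw [NAq_aux_apply, NAq_aux_apply, NAq_aux_apply]
  rfl

end

theorem naskew_iterate {X R M : Type*} [CommRing R] [AddCommGroup M] [Module R M] (S : X → X)
    (φ : X → (M ≃ₗ[R] M)) (α : X → Dual M) (n : ℕ) (x : X) (y : Dual M) :
    (naskew S φ α)^[n] (x, y) = (S^[n] x, nac S φ α n x * nact (coc S φ n x) y) := by
  induction n with
  | zero =>
    refine Prod.ext rfl ?_
    refine DFunLike.ext _ _ fun m => ?_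
    simp [nact, coc, nac]
  | succ n ih =>
    rw [Function.iterate_succ_apply', ih]
    refine Prod.ext (Function.iterate_succ_apply' S n x).symm ?_
    show α (S^[n] x) * nact (φ (S^[n] x)) (nac S φ α n x * nact (coc S φ n x) y) =
      (α (S^[n] x) * nact (φ (S^[n] x)) (nac S φ α n x)) *
        nact (coc S φ n x * φ (S^[n] x)) y
    rw [NAq_aux_mul, NAq_aux_comp, mul_assoc]

theorem NAq_aux_meas {X M : Type*} [MeasurableSpace X] [Countable M] (F : X → M → ℂ)
    (hF : ∀ m', Measurable (fun x => F x m')) (g : X → M)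
    (hg : ∀ m', MeasurableSet {x | g x = m'}) : Measurable (fun x => F x (g x)) := by
  intro U hU
  have h : (fun x => F x (g x)) ⁻¹' U = ⋃ m', ({x | g x = m'} ∩ (fun x => F x m') ⁻¹' U) := by
    ext x
    simp only [Set.mem_preimage, Set.mem_iUnion, Set.mem_inter_iff]
    constructor
    · intro hx
      exact ⟨g x, rfl, hx⟩
    · rintro ⟨m', h1, h2⟩
      have h1' : g x = m' := h1
      rw [h1']
      exact h2
  rw [h]
  exact MeasurableSet.iUnion fun m' => (hg m').inter (hF m' hU)

theorem nac_measurable {X R M : Type*} [MeasurableSpace X] [CommRing R] [AddCommGroup M]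
    [Module R M] [Countable M] (S : X → X) (hS : Measurable S) (φ : X → (M ≃ₗ[R] M))
    (hφ : ∀ m m' : M, MeasurableSet {x | φ x m = m'}) (α : X → Dual M)
    (hα : Measurable α) (n : ℕ) : Measurable (nac S φ α n) := by
  induction n with
  | zero => exact measurable_const
  | succ n ih =>
    apply SP_aux_meas
    intro m
    have h : (fun x => ((nac S φ α (n + 1) x m : Circle) : ℂ)) =
        fun x => ((α (S^[n] x) m : Circle) : ℂ) *
          ((nac S φ α n x (φ (S^[n] x) m) : Circle) : ℂ) := by
      funext x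
      show (((α (S^[n] x) * nact (φ (S^[n] x)) (nac S φ α n x)) m : Circle) : ℂ) = _
      rw [AddChar.mul_apply, Circle.coe_mul, NAq_aux_apply]
    rw [h]
    refine Measurable.mul ((SP_aux_eval m).comp (hα.comp (hS.iterate n))) ?_
    apply NAq_aux_meas (F := fun x m' => ((nac S φ α n x m' : Circle) : ℂ))
      (g := fun x => φ (S^[n] x) m)
    · intro m'
      exact (SP_aux_eval m').comp ih
    · intro m'
      exact (hS.iterate n) (hφ m m')

end H567MM.P
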