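import Pool.Agent.H567R2.MQ.Stubs
import Pool.Agent.H567R2.MMF.TM

/-! Task NC (author helper171): integrals of products of tensor functions. -/

namespace H567MM.P

open MeasureTheory Filter Topology

theorem NCq_aux_prod {X R M : Type*} [CommRing R] [AddCommGroup M] [Module R M] (S : X → X)
    (φ : X → (M ≃ₗ[R] M)) (α : X → Dual M) {s : ℕ} (A : Fin s → Set X) (m : Fin s → M)
    (n : Fin s → ℕ) (x : X) (y : Dual M) :
    ∏ j, ten (A j) (m j) ((naskew S φ α)^[n j] (x, y)) =
      ((∏ j, (A j).indicator (fun _ => (1 : ℂ)) (S^[n j] x)) *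
        ∏ j, ((nac S φ α (n j) x (m j) : Circle) : ℂ)) *
        ((y (∑ j, coc S φ (n j) x (m j)) : Circle) : ℂ) := by
  have h1 : ∀ j, ten (A j) (m j) ((naskew S φ α)^[n j] (x, y)) =
      ((A j).indicator (fun _ => (1 : ℂ)) (S^[n j] x) * ((nac S φ α (n j) x (m j) : Circle) : ℂ)) *
        ((y (coc S φ (n j) x (m j)) : Circle) : ℂ) := by
    intro j
    rw [H567MM.naskew_iterate, mul_assoc]
    have h3 : (nac S φ α (n j) x * nact (coc S φ (n j) x) y) (m j) =
        nac S φ α (n j) x (m j) * y (coc S φ (n j) x (m j)) := rfl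
    have h4 : (((nac S φ α (n j) x * nact (coc S φ (n j) x) y) (m j) : Circle) : ℂ) =
        ((nac S φ α (n j) x (m j) : Circle) : ℂ) * ((y (coc S φ (n j) x (m j)) : Circle) : ℂ) := by
      rw [h3]; rfl
    rw [← h4]
    rfl
  rw [Finset.prod_congr rfl (fun j _ => h1 j), Finset.prod_mul_distrib, Finset.prod_mul_distrib]
  congr 1
  have h2 : y (∑ j, coc S φ (n j) x (m j)) = ∏ j, y (coc S φ (n j) x (m j)) := by
    have := map_prod y.toMonoidHom
      (fun j => Multiplicative.ofAdd (coc S φ (n j) x (m j))) Finset.univ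
    simpa [← ofAdd_sum] using this
  rw [h2]
  exact (map_prod Circle.coeHom _ _).symm

theorem NCq_aux_int {X R M : Type*} [MeasurableSpace X] (μ : Measure X)
    [IsProbabilityMeasure μ] (S : X → X) (hS : MeasurePreserving S μ μ)
    [CommRing R] [AddCommGroup M] [Module R M] [Countable M] (φ : X → (M ≃ₗ[R] M))
    (hφ : ∀ m m' : M, MeasurableSet {x | φ x m = m'}) (α : X → Dual M)
    (hα : Measurable α) (ν : Measure (Dual M)) (hν : IsHaarProb ν) {s : ℕ}
    (A : Fin s → Set X) (hA : ∀ j, MeasurableSet (A j)) (m : Fin s → M) (n : Fin s → ℕ) :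
    Integrable (fun z : X × Dual M => ∏ j, ten (A j) (m j) ((naskew S φ α)^[n j] z))
      (μ.prod ν) := by
  haveI := hν.1
  have hT := H567MM.naskew_mp (M := M) μ S hS φ hφ α hα ν hν
  have hmeas : Measurable
      (fun z : X × Dual M => ∏ j, ten (A j) (m j) ((naskew S φ α)^[n j] z)) := by
    apply Finset.measurable_prod
    intro j _
    exact (TM_aux_ten_meas (A j) (hA j) (m j)).comp (hT.measurable.iterate (n j))
  refine Integrable.of_bound hmeas.aestronglyMeasurable 1 (ae_of_all _ fun z => ?_)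
  rw [norm_prod]
  exact Finset.prod_le_one (fun j _ => norm_nonneg _) fun j _ => TM_aux_ten_le _ _ _

open Classical in
theorem NCq_aux_inner {X R M : Type*} [MeasurableSpace X]
    [CommRing R] [AddCommGroup M] [Module R M] [Countable M] (S : X → X) (φ : X → (M ≃ₗ[R] M))
    (α : X → Dual M) (ν : Measure (Dual M)) (hν : IsHaarProb ν) {s : ℕ}
    (A : Fin s → Set X) (m : Fin s → M) (n : Fin s → ℕ) (x : X) :
    ∫ y, ∏ j, ten (A j) (m j) ((naskew S φ α)^[n j] (x, y)) ∂ν =
      ((∏ j, (A j).indicator (fun _ => (1 : ℂ)) (S^[n j] x)) *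
        ∏ j, ((nac S φ α (n j) x (m j) : Circle) : ℂ)) *
        (if ∑ j, coc S φ (n j) x (m j) = 0 then (1 : ℂ) else 0) := by
  simp only [NCq_aux_prod S φ α A m n x]
  rw [integral_const_mul, TM_aux_int_char ν hν]

theorem NCq_aux_set {X R M : Type*} [MeasurableSpace X] (S : X → X) (hS : Measurable S)
    [CommRing R] [AddCommGroup M] [Module R M] [Countable M] (φ : X → (M ≃ₗ[R] M))
    (hφ : ∀ m m' : M, MeasurableSet {x | φ x m = m'}) {s : ℕ} (m : Fin s → M) (n : Fin s → ℕ) :
    MeasurableSet {x | ∑ i, coc S φ (n i) x (m i) = 0} := by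
  have h3 : {x | ∑ i, coc S φ (n i) x (m i) = 0} =
      ⋃ c : {c : Fin s → M // ∑ i, c i = 0}, ⋂ i, {x | coc S φ (n i) x (m i) = c.1 i} := by
    ext x
    simp only [Set.mem_ofPred_eq, Set.mem_iUnion, Set.mem_iInter]
    constructor
    · intro h
      exact ⟨⟨fun i => coc S φ (n i) x (m i), h⟩, fun i => rfl⟩
    · rintro ⟨⟨c, hc⟩, h⟩
      rw [← hc]
      exact Finset.sum_congr rfl fun i _ => h i
  rw [h3]
  exact MeasurableSet.iUnion fun c => MeasurableSet.iInter fun i =>
    H567MM.ncoc_meas S hS φ hφ _ _ _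

theorem NCq_aux_ind {X : Type*} {s : ℕ} (A : Fin s → Set X) (u : Fin s → X) :
    ∏ j, (A j).indicator (fun _ => (1 : ℂ)) (u j) = {x : Fin s → X | ∀ j, x j ∈ A j}.indicator
      (fun _ => (1 : ℂ)) u := by
  by_cases h : ∀ j, u j ∈ A j
  · rw [Set.indicator_of_mem (show u ∈ {x : Fin s → X | ∀ j, x j ∈ A j} from h)]
    exact Finset.prod_eq_one fun j _ => Set.indicator_of_mem (h j) _
  · rw [Set.indicator_of_notMem (show u ∉ {x : Fin s → X | ∀ j, x j ∈ A j} from h)]
    push Not at h
    obtain ⟨j, hj⟩ := h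
    exact Finset.prod_eq_zero (Finset.mem_univ j) (Set.indicator_of_notMem hj _)

theorem nten_int_sub {X R M : Type*} [MeasurableSpace X] (μ : Measure X)
    [IsProbabilityMeasure μ] (S : X → X) (hS : MeasurePreserving S μ μ)
    [CommRing R] [AddCommGroup M] [Module R M] [Countable M] (φ : X → (M ≃ₗ[R] M))
    (hφ : ∀ m m' : M, MeasurableSet {x | φ x m = m'}) (α : X → Dual M)
    (hα : Measurable α) (ν : Measure (Dual M)) (hν : IsHaarProb ν) {s : ℕ}
    (A A' : Fin s → Set X) (hA : ∀ j, MeasurableSet (A j)) (hA' : ∀ j, MeasurableSet (A' j))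
    (hsub : ∀ j, A' j ⊆ A j) (m : Fin s → M) (n : Fin s → ℕ) :
    ‖∫ z, ∏ j, ten (A j) (m j) ((naskew S φ α)^[n j] z) ∂(μ.prod ν) -
      ∫ z, ∏ j, ten (A' j) (m j) ((naskew S φ α)^[n j] z) ∂(μ.prod ν)‖ ≤
      μ.real {x | (∀ j, S^[n j] x ∈ A j) ∧ (∃ j, S^[n j] x ∉ A' j) ∧
        ∑ j, coc S φ (n j) x (m j) = 0} := by
  classical
  haveI := hν.1
  have hi1 := NCq_aux_int μ S hS φ hφ α hα ν hν A hA m n
  have hi2 := NCq_aux_int μ S hS φ hφ α hα ν hν A' hA' m n
  rw [integral_prod _ hi1, integral_prod _ hi2,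
    ← integral_sub hi1.integral_prod_left hi2.integral_prod_left]
  simp only [NCq_aux_inner S φ α ν hν]
  set D : Set X := {x | (∀ j, S^[n j] x ∈ A j) ∧ (∃ j, S^[n j] x ∉ A' j) ∧
        ∑ j, coc S φ (n j) x (m j) = 0} with hD
  have hDm : MeasurableSet D := by
    have e : D = (⋂ j, S^[n j] ⁻¹' A j) ∩ ((⋃ j, (S^[n j] ⁻¹' A' j)ᶜ) ∩
        {x | ∑ j, coc S φ (n j) x (m j) = 0}) := by
      ext x
      simp [hD]
    rw [e]
    refine (MeasurableSet.iInter fun j => (hS.measurable.iterate (n j)) (hA j)).inter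
      ((MeasurableSet.iUnion fun j => ((hS.measurable.iterate (n j)) (hA' j)).compl).inter ?_)
    exact NCq_aux_set S hS.measurable φ hφ m n
  calc _ ≤ ∫ x, D.indicator (fun _ => (1 : ℝ)) x ∂μ := by
        apply norm_integral_le_of_norm_le
        · exact (integrable_const (1 : ℝ)).indicator hDm
        · refine ae_of_all _ fun x => ?_
          rw [← sub_mul, ← sub_mul, NCq_aux_ind A, NCq_aux_ind A', norm_mul, norm_mul, norm_prod]
          have e1 : ∏ j, ‖((nac S φ α (n j) x (m j) : Circle) : ℂ)‖ = 1 :=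
            Finset.prod_eq_one fun j _ => Circle.norm_coe _
          rw [e1, mul_one]
          by_cases h3 : ∑ j, coc S φ (n j) x (m j) = 0
          · rw [if_pos h3, norm_one, mul_one]
            by_cases h4 : ∀ j, S^[n j] x ∈ A j
            · rw [Set.indicator_of_mem (show (fun j => S^[n j] x) ∈
                {x : Fin s → X | ∀ j, x j ∈ A j} from h4)]
              by_cases h5 : ∀ j, S^[n j] x ∈ A' j
              · rw [Set.indicator_of_mem (show (fun j => S^[n j] x) ∈
                  {x : Fin s → X | ∀ j, x j ∈ A' j} from h5), sub_self, norm_zero]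
                exact Set.indicator_nonneg (fun _ _ => zero_le_one) x
              · rw [Set.indicator_of_notMem (show (fun j => S^[n j] x) ∉
                  {x : Fin s → X | ∀ j, x j ∈ A' j} from h5), sub_zero, norm_one]
                push Not at h5
                rw [Set.indicator_of_mem (show x ∈ D from ⟨h4, h5, h3⟩)]
            · have h5 : ¬ ∀ j, S^[n j] x ∈ A' j := fun h => h4 fun j => hsub j (h j)
              rw [Set.indicator_of_notMem (show (fun j => S^[n j] x) ∉
                {x : Fin s → X | ∀ j, x j ∈ A j} from h4),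
                Set.indicator_of_notMem (show (fun j => S^[n j] x) ∉
                {x : Fin s → X | ∀ j, x j ∈ A' j} from h5), sub_self, norm_zero]
              exact Set.indicator_nonneg (fun _ _ => zero_le_one) x
          · rw [if_neg h3, norm_zero, mul_zero]
            exact Set.indicator_nonneg (fun _ _ => zero_le_one) x
    _ = μ.real D := by
        rw [integral_indicator hDm]
        simp

theorem nten_int_le {X R M : Type*} [MeasurableSpace X] (μ : Measure X)
    [IsProbabilityMeasure μ] (S : X → X) (hS : MeasurePreserving S μ μ)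
    [CommRing R] [AddCommGroup M] [Module R M] [Countable M] (φ : X → (M ≃ₗ[R] M))
    (hφ : ∀ m m' : M, MeasurableSet {x | φ x m = m'}) (α : X → Dual M)
    (hα : Measurable α) (ν : Measure (Dual M)) (hν : IsHaarProb ν) {s : ℕ}
    (A : Fin s → Set X) (hA : ∀ j, MeasurableSet (A j)) (m : Fin s → M) (n : Fin s → ℕ) :
    ‖∫ z, ∏ j, ten (A j) (m j) ((naskew S φ α)^[n j] z) ∂(μ.prod ν)‖ ≤
      μ.real {x | (∀ j, S^[n j] x ∈ A j) ∧ ∑ j, coc S φ (n j) x (m j) = 0} := by
  classical
  haveI := hν.1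
  have hi1 := NCq_aux_int μ S hS φ hφ α hα ν hν A hA m n
  rw [integral_prod _ hi1]
  simp only [NCq_aux_inner S φ α ν hν]
  set D : Set X := {x | (∀ j, S^[n j] x ∈ A j) ∧ ∑ j, coc S φ (n j) x (m j) = 0} with hD
  have hDm : MeasurableSet D := by
    have e : D = (⋂ j, S^[n j] ⁻¹' A j) ∩ {x | ∑ j, coc S φ (n j) x (m j) = 0} := by
      ext x
      simp [hD]
    rw [e]
    refine (MeasurableSet.iInter fun j => (hS.measurable.iterate (n j)) (hA j)).inter ?_
    exact NCq_aux_set S hS.measurable φ hφ m n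
  calc _ ≤ ∫ x, D.indicator (fun _ => (1 : ℝ)) x ∂μ := by
        apply norm_integral_le_of_norm_le
        · exact (integrable_const (1 : ℝ)).indicator hDm
        · refine ae_of_all _ fun x => ?_
          rw [NCq_aux_ind A, norm_mul, norm_mul, norm_prod]
          have e1 : ∏ j, ‖((nac S φ α (n j) x (m j) : Circle) : ℂ)‖ = 1 :=
            Finset.prod_eq_one fun j _ => Circle.norm_coe _
          rw [e1, mul_one]
          by_cases h3 : ∑ j, coc S φ (n j) x (m j) = 0
          · rw [if_pos h3, norm_one, mul_one]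
            by_cases h4 : ∀ j, S^[n j] x ∈ A j
            · rw [Set.indicator_of_mem (show (fun j => S^[n j] x) ∈
                {x : Fin s → X | ∀ j, x j ∈ A j} from h4), norm_one,
                Set.indicator_of_mem (show x ∈ D from ⟨h4, h3⟩)]
            · rw [Set.indicator_of_notMem (show (fun j => S^[n j] x) ∉
                {x : Fin s → X | ∀ j, x j ∈ A j} from h4), norm_zero]
              exact Set.indicator_nonneg (fun _ _ => zero_le_one) x
          · rw [if_neg h3, norm_zero, mul_zero]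
            exact Set.indicator_nonneg (fun _ _ => zero_le_one) x
    _ = μ.real D := by
        rw [integral_indicator hDm]
        simp

theorem nten_int_zero {X R M : Type*} [MeasurableSpace X] (μ : Measure X)
    [IsProbabilityMeasure μ] (S : X → X) (hS : MeasurePreserving S μ μ)
    [CommRing R] [AddCommGroup M] [Module R M] [Countable M] (φ : X → (M ≃ₗ[R] M))
    (α : X → Dual M) (ν : Measure (Dual M)) (hν : IsHaarProb ν) {s : ℕ}
    (A : Fin s → Set X) (hA : ∀ j, MeasurableSet (A j)) (n : Fin s → ℕ) :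
    ∫ z, ∏ j, ten (A j) (0 : M) ((naskew S φ α)^[n j] z) ∂(μ.prod ν) =
      ((μ.real (⋂ j, S^[n j] ⁻¹' A j) : ℝ) : ℂ) := by
  haveI := hν.1
  have h3 : ∀ z : X × Dual M, ∏ j, ten (A j) (0 : M) ((naskew S φ α)^[n j] z) =
      (⋂ j, S^[n j] ⁻¹' A j).indicator (fun _ => (1 : ℂ)) z.1 := by
    rintro ⟨x, y⟩
    rw [NCq_aux_prod S φ α A (fun _ => 0) n x y]
    have e1 : ∏ j : Fin s, ((nac S φ α (n j) x (0 : M) : Circle) : ℂ) = 1 :=
      Finset.prod_eq_one fun j _ => by
        rw [AddChar.map_zero_eq_one]; rfl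
    have e2 : ((y (∑ j : Fin s, coc S φ (n j) x (0 : M)) : Circle) : ℂ) = 1 := by
      simp
    rw [e1, e2, mul_one, mul_one]
    by_cases h5 : x ∈ ⋂ j, S^[n j] ⁻¹' A j
    · rw [Set.indicator_of_mem h5]
      apply Finset.prod_eq_one
      intro j _
      have := Set.mem_iInter.1 h5 j
      rw [Set.indicator_of_mem (show S^[n j] x ∈ A j from this)]
    · rw [Set.indicator_of_notMem h5]
      rw [Set.mem_iInter, not_forall] at h5
      obtain ⟨j, hj⟩ := h5
      apply Finset.prod_eq_zero (Finset.mem_univ j)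
      rw [Set.indicator_of_notMem]
      exact hj
  simp only [h3]
  have h4 := integral_fun_fst (μ := μ) (ν := ν)
    (fun x => (⋂ j, S^[n j] ⁻¹' A j).indicator (fun _ => (1 : ℂ)) x)
  rw [h4, integral_indicator]
  · simp
  · exact MeasurableSet.iInter fun j => (hS.measurable.iterate (n j)) (hA j)

end H567MM.P
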