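import Pool.Agent.H567R2.MQ.Stubs

/-! Task ND: the functions `nth`. -/

namespace H567MM.P

open MeasureTheory Filter Topology H567MM

/-! ### approximation in a subspace -/

section
variable {Z : Type*} [MeasurableSpace Z]

def NDq_Ap (ρ : Measure Z) (V : Submodule ℂ (Z → ℂ)) (g : Z → ℂ) : Prop :=
  ∀ ε : ℝ, 0 < ε → ∃ f ∈ V, ∫ z, ‖g z - f z‖ ∂ρ < ε

theorem NDq_aux_add (ρ : Measure Z) (V : Submodule ℂ (Z → ℂ)) (hV : ∀ f ∈ V, Integrable f ρ)
    {g h : Z → ℂ} (hg : Integrable g ρ) (hh : Integrable h ρ) (ag : NDq_Ap ρ V g)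
    (ah : NDq_Ap ρ V h) : NDq_Ap ρ V (fun z => g z + h z) := by
  intro ε hε
  obtain ⟨f, hf, h1⟩ := ag (ε / 2) (by linarith)
  obtain ⟨f', hf', h2⟩ := ah (ε / 2) (by linarith)
  refine ⟨f + f', V.add_mem hf hf', ?_⟩
  have hfi := hV f hf
  have hfi' := hV f' hf'
  calc ∫ z, ‖(g z + h z) - (f + f') z‖ ∂ρ ≤ ∫ z, (‖g z - f z‖ + ‖h z - f' z‖) ∂ρ := by
        refine integral_mono ((hg.add hh).sub (hfi.add hfi')).norm
          ((hg.sub hfi).norm.add (hh.sub hfi').norm) ?_
        intro z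
        have : (g z + h z) - (f + f') z = (g z - f z) + (h z - f' z) := by
          simp only [Pi.add_apply]; ring
        simp only [this]
        exact norm_add_le _ _
    _ = ∫ z, ‖g z - f z‖ ∂ρ + ∫ z, ‖h z - f' z‖ ∂ρ :=
        integral_add (hg.sub hfi).norm (hh.sub hfi').norm
    _ < ε := by linarith

theorem NDq_aux_lim (ρ : Measure Z) (V : Submodule ℂ (Z → ℂ)) (hV : ∀ f ∈ V, Integrable f ρ)
    {g : Z → ℂ} (hg : Integrable g ρ) (h : ∀ ε : ℝ, 0 < ε → ∃ g', Integrable g' ρ ∧
      NDq_Ap ρ V g' ∧ ∫ z, ‖g z - g' z‖ ∂ρ < ε) : NDq_Ap ρ V g := by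
  intro ε hε
  obtain ⟨g', hg', hA, h1⟩ := h (ε / 2) (by linarith)
  obtain ⟨f, hf, h2⟩ := hA (ε / 2) (by linarith)
  refine ⟨f, hf, ?_⟩
  have hfi := hV f hf
  calc ∫ z, ‖g z - f z‖ ∂ρ ≤ ∫ z, (‖g z - g' z‖ + ‖g' z - f z‖) ∂ρ := by
        refine integral_mono (hg.sub hfi).norm ((hg.sub hg').norm.add (hg'.sub hfi).norm) ?_
        intro z
        exact norm_sub_le_norm_sub_add_norm_sub _ _ _
    _ = ∫ z, ‖g z - g' z‖ ∂ρ + ∫ z, ‖g' z - f z‖ ∂ρ :=
        integral_add (hg.sub hg').norm (hg'.sub hfi).norm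
    _ < ε := by linarith

theorem NDq_aux_sum (ρ : Measure Z) (V : Submodule ℂ (Z → ℂ)) (hV : ∀ f ∈ V, Integrable f ρ)
    {ι : Type*} (s : Finset ι) (g : ι → Z → ℂ) (hg : ∀ i ∈ s, Integrable (g i) ρ)
    (ag : ∀ i ∈ s, NDq_Ap ρ V (g i)) :
    Integrable (fun z => ∑ i ∈ s, g i z) ρ ∧ NDq_Ap ρ V (fun z => ∑ i ∈ s, g i z) := by
  classical
  induction s using Finset.induction_on with
  | empty =>
    refine ⟨by simpa using integrable_zero _ _ _, fun ε hε => ⟨0, V.zero_mem, ?_⟩⟩
    simpa using hε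
  | insert i s hi ih =>
    simp only [Finset.sum_insert hi]
    have ih' := ih (fun j hj => hg j (Finset.mem_insert_of_mem hj))
      (fun j hj => ag j (Finset.mem_insert_of_mem hj))
    have h1 := hg i (Finset.mem_insert_self i s)
    exact ⟨h1.add ih'.1, NDq_aux_add ρ V hV h1 ih'.1 (ag i (Finset.mem_insert_self i s)) ih'.2⟩

end

section
variable {X R M : Type*} [MeasurableSpace X] [CommRing R] [AddCommGroup M] [Module R M]

/-- the span of the tensor functions with characters in the field `L` -/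
def NDq_E (L : X → Submodule R M) : Submodule ℂ (X × Dual M → ℂ) :=
  Submodule.span ℂ {g | ∃ (A : Set X) (m : M), MeasurableSet A ∧ (∀ x ∈ A, m ∈ L x) ∧ g = ten A m}

theorem NDq_E_int (ρ : Measure (X × Dual M)) [IsProbabilityMeasure ρ] (L : X → Submodule R M)
    {g : X × Dual M → ℂ} (hg : g ∈ NDq_E L) : Integrable g ρ := by
  refine Submodule.span_induction ?_ ?_ ?_ ?_ hg
  · rintro _ ⟨A, m, hA, -, rfl⟩
    refine Integrable.of_bound (FA_meas_ten hA m).aestronglyMeasurable 1 ?_
    exact Eventually.of_forall (FA_norm_ten A m)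
  · exact integrable_zero _ _ _
  · intro f h _ _ hf hh; exact hf.add hh
  · intro c f _ hf; exact hf.smul c

/-- functions `b(x) y(l)` -/
theorem NDq_aux_one (μ : Measure X) [IsProbabilityMeasure μ] (ν : Measure (Dual M))
    [IsProbabilityMeasure ν] (L : X → Submodule R M) (D : Set X) (hDm : MeasurableSet D)
    (b : X → ℂ) (hb : Integrable b μ) (hb0 : ∀ x, x ∉ D → b x = 0)
    (l : M) (hl : ∀ x ∈ D, l ∈ L x) :
    NDq_Ap (μ.prod ν) (NDq_E L) (fun z => b z.1 * ((z.2 l : Circle) : ℂ)) := by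
  intro ε hε
  obtain ⟨s, hs, hs2⟩ := (memLp_one_iff_integrable.2 hb).exists_simpleFunc_eLpNorm_sub_lt
    (p := 1) (by norm_num) (ε := ENNReal.ofReal ε) (ENNReal.ofReal_pos.2 hε).ne'
  have hsi : Integrable s μ := memLp_one_iff_integrable.1 hs2
  refine ⟨∑ c ∈ s.range, c • ten (s ⁻¹' {c} ∩ D) l, ?_, ?_⟩
  · refine Submodule.sum_mem _ fun c _ => Submodule.smul_mem _ _ (Submodule.subset_span ?_)
    exact ⟨s ⁻¹' {c} ∩ D, l, (s.measurableSet_preimage {c}).inter hDm, fun x hx => hl x hx.2, rfl⟩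
  · have hval : ∀ z : X × Dual M, (∑ c ∈ s.range, c • ten (s ⁻¹' {c} ∩ D) l) z =
        D.indicator s z.1 * ((z.2 l : Circle) : ℂ) := by
      intro z
      rw [Finset.sum_apply, Finset.sum_eq_single (s z.1)]
      · by_cases hz : z.1 ∈ D
        · have : z.1 ∈ s ⁻¹' {s z.1} ∩ D := ⟨rfl, hz⟩
          simp [ten, this, hz]
        · have : z.1 ∉ s ⁻¹' {s z.1} ∩ D := fun h => hz h.2
          simp [ten, this, hz]
      · intro c _ hc
        have : z.1 ∉ s ⁻¹' {c} ∩ D := fun h => hc h.1.symm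
        simp [ten, this]
      · intro h
        exact absurd (s.mem_range_self z.1) h
    have h1 : ∫ z, ‖b z.1 * ((z.2 l : Circle) : ℂ) -
        (∑ c ∈ s.range, c • ten (s ⁻¹' {c} ∩ D) l) z‖ ∂(μ.prod ν) =
        ∫ x, ‖b x - D.indicator s x‖ ∂μ := by
      have e1 : ∀ z : X × Dual M, ‖b z.1 * ((z.2 l : Circle) : ℂ) -
          (∑ c ∈ s.range, c • ten (s ⁻¹' {c} ∩ D) l) z‖ = ‖b z.1 - D.indicator s z.1‖ := by
        intro z
        rw [hval, ← sub_mul, norm_mul, Circle.norm_coe, mul_one]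
      simp only [e1]
      have hfst : MeasurePreserving (Prod.fst : X × Dual M → X) (μ.prod ν) μ :=
        measurePreserving_fst
      have hm : AEStronglyMeasurable (fun x => ‖b x - D.indicator s x‖)
          (Measure.map Prod.fst (μ.prod ν)) := by
        rw [hfst.map_eq]; exact (hb.sub (hsi.indicator hDm)).norm.aestronglyMeasurable
      have := integral_map hfst.measurable.aemeasurable hm
      rw [hfst.map_eq] at this
      exact this.symm
    have h1' : ∫ x, ‖b x - D.indicator s x‖ ∂μ ≤ ∫ x, ‖b x - s x‖ ∂μ := by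
      refine integral_mono (hb.sub (hsi.indicator hDm)).norm (hb.sub hsi).norm ?_
      intro x
      by_cases hx : x ∈ D
      · simp [hx]
      · simp [hx, hb0 x hx]
    rw [h1]
    refine lt_of_le_of_lt h1' ?_
    rw [eLpNorm_one_eq_lintegral_enorm] at hs
    have h3 := integral_norm_eq_lintegral_enorm (hb.sub hsi).aestronglyMeasurable
    simp only [Pi.sub_apply] at h3 hs
    rw [h3]
    have h2 := (ENNReal.toReal_lt_toReal (ne_top_of_lt hs) ENNReal.ofReal_ne_top).2 hs
    rw [ENNReal.toReal_ofReal hε.le] at h2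
    exact h2

end

section
variable {X R M : Type*} [CommRing R] [AddCommGroup M] [Module R M]

/-- the difference -/
def NDq_d (S : X → X) (φ : X → (M ≃ₗ[R] M)) (m : M) (t t' : ℕ) (x : X) : M :=
  coc S φ t x m - coc S φ t' x m

/-- the coefficient -/
noncomputable def NDq_b (S : X → X) (φ : X → (M ≃ₗ[R] M)) (α : X → Dual M) (A : Set X) (m : M)
    (t t' : ℕ) (x : X) : ℂ :=
  (A.indicator (fun _ => (1 : ℂ)) (S^[t] x) * ((nac S φ α t x m : Circle) : ℂ)) *
    (starRingEnd ℂ) (A.indicator (fun _ => (1 : ℂ)) (S^[t'] x) * ((nac S φ α t' x m : Circle) : ℂ))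

theorem NDq_aux_ten (S : X → X) (φ : X → (M ≃ₗ[R] M)) (α : X → Dual M) (A : Set X) (m : M)
    (t : ℕ) (z : X × Dual M) : ten A m ((naskew S φ α)^[t] z) =
      (A.indicator (fun _ => (1 : ℂ)) (S^[t] z.1) * ((nac S φ α t z.1 m : Circle) : ℂ)) *
        ((z.2 (coc S φ t z.1 m) : Circle) : ℂ) := by
  obtain ⟨x, y⟩ := z
  rw [naskew_iterate]
  unfold ten
  have : (nac S φ α t x * nact (coc S φ t x) y) m = nac S φ α t x m * y (coc S φ t x m) := by
    rw [AddChar.mul_apply]; rfl
  simp only [this, Circle.coe_mul]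
  ring

theorem NDq_aux_form (S : X → X) (φ : X → (M ≃ₗ[R] M)) (α : X → Dual M)
    (L : X → Submodule R M) (A : Set X) (m : M) (t t' : ℕ) (z : X × Dual M) :
    nth S φ α L A m t t' z =
      {x | NDq_d S φ m t t' x ∈ L x}.indicator (fun _ => (1 : ℂ)) z.1 *
        (NDq_b S φ α A m t t' z.1 * ((z.2 (NDq_d S φ m t t' z.1) : Circle) : ℂ)) := by
  unfold nth
  rw [NDq_aux_ten, NDq_aux_ten, map_mul]
  have h : ((z.2 (NDq_d S φ m t t' z.1) : Circle) : ℂ) =
      ((z.2 (coc S φ t z.1 m) : Circle) : ℂ) *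
      (starRingEnd ℂ) ((z.2 (coc S φ t' z.1 m) : Circle) : ℂ) := by
    unfold NDq_d
    rw [sub_eq_add_neg, AddChar.map_add_eq_mul, AddChar.map_neg_eq_inv, Circle.coe_mul,
      Circle.coe_inv_eq_conj]
  rw [h]
  unfold NDq_b NDq_d
  ring

theorem NDq_aux_b_le (S : X → X) (φ : X → (M ≃ₗ[R] M)) (α : X → Dual M) (A : Set X)
    (m : M) (t t' : ℕ) (x : X) : ‖NDq_b S φ α A m t t' x‖ ≤ 1 := by
  have h : ∀ t, ‖A.indicator (fun _ => (1 : ℂ)) (S^[t] x) *
      ((nac S φ α t x m : Circle) : ℂ)‖ ≤ 1 := by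
    intro t
    rw [norm_mul, Circle.norm_coe, mul_one]
    by_cases hx : S^[t] x ∈ A
    · simp [hx]
    · simp [hx]
  unfold NDq_b
  rw [norm_mul, RCLike.norm_conj]
  exact mul_le_one₀ (h t) (norm_nonneg _) (h t')

variable [MeasurableSpace X] [Countable M]

theorem NDq_aux_d_meas (S : X → X) (hS : Measurable S) (φ : X → (M ≃ₗ[R] M))
    (hφ : ∀ m m' : M, MeasurableSet {x | φ x m = m'}) (m : M) (t t' : ℕ) (m' : M) :
    MeasurableSet {x | NDq_d S φ m t t' x = m'} := by
  have e : {x | NDq_d S φ m t t' x = m'} =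
      ⋃ m'' : M, {x | coc S φ t x m = m''} ∩ {x | coc S φ t' x m = m'' - m'} := by
    ext x
    simp only [Set.mem_ofPred_eq, Set.mem_iUnion, Set.mem_inter_iff, NDq_d]
    constructor
    · intro h
      refine ⟨coc S φ t x m, rfl, ?_⟩
      rw [← h]; abel
    · rintro ⟨m'', h1, h2⟩
      rw [h1, h2]; abel
  rw [e]
  exact MeasurableSet.iUnion fun m'' => (ncoc_meas S hS φ hφ t m m'').inter
    (ncoc_meas S hS φ hφ t' m (m'' - m'))

theorem NDq_aux_set (d : X → M) (hd : ∀ m', MeasurableSet {x | d x = m'})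
    (L : X → Submodule R M) (hL : ∀ m : M, MeasurableSet {x | m ∈ L x}) (C : Set M) :
    MeasurableSet {x | d x ∈ L x ∧ d x ∈ C} := by
  have e : {x | d x ∈ L x ∧ d x ∈ C} = ⋃ m' ∈ C, ({x | d x = m'} ∩ {x | m' ∈ L x}) := by
    ext x
    simp only [Set.mem_ofPred_eq, Set.mem_iUnion, Set.mem_inter_iff, exists_prop]
    constructor
    · rintro ⟨h1, h2⟩
      exact ⟨d x, h2, rfl, h1⟩
    · rintro ⟨m', h1, h2, h3⟩
      rw [h2]
      exact ⟨h3, h1⟩
  rw [e]
  exact MeasurableSet.biUnion (Set.to_countable C) fun m' _ => (hd m').inter (hL m')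

theorem NDq_aux_set' (d : X → M) (hd : ∀ m', MeasurableSet {x | d x = m'})
    (L : X → Submodule R M) (hL : ∀ m : M, MeasurableSet {x | m ∈ L x}) :
    MeasurableSet {x | d x ∈ L x} := by
  have h := NDq_aux_set d hd L hL Set.univ
  have e : {x | d x ∈ L x ∧ d x ∈ (Set.univ : Set M)} = {x | d x ∈ L x} := by
    ext x
    simp
  rwa [e] at h

theorem NDq_aux_ev_meas (d : X → M) (hd : ∀ m', MeasurableSet {x | d x = m'}) :
    Measurable (fun z : X × Dual M => ((z.2 (d z.1) : Circle) : ℂ)) := by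
  let _ : MeasurableSpace M := ⊤
  have h1 : Measurable (fun p : M × (X × Dual M) => ((p.2.2 p.1 : Circle) : ℂ)) := by
    apply measurable_from_prod_countable_right
    intro m'
    exact (SP_aux_eval m').comp measurable_snd
  have h2 : Measurable (fun z : X × Dual M => d z.1) := by
    apply measurable_to_countable'
    intro m'
    exact measurable_fst (hd m')
  exact h1.comp (h2.prodMk measurable_id)

theorem NDq_aux_b_meas (S : X → X) (hS : Measurable S) (φ : X → (M ≃ₗ[R] M))
    (hφ : ∀ m m' : M, MeasurableSet {x | φ x m = m'}) (α : X → Dual M)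
    (hα : Measurable α) (A : Set X) (hA : MeasurableSet A) (m : M) (t t' : ℕ) :
    Measurable (NDq_b S φ α A m t t') := by
  have h : ∀ t, Measurable (fun x => A.indicator (fun _ => (1 : ℂ)) (S^[t] x) *
      ((nac S φ α t x m : Circle) : ℂ)) := fun t =>
    ((measurable_const.indicator hA).comp (hS.iterate t)).mul
      ((SP_aux_eval m).comp (nac_measurable S hS φ hφ α hα t))
  unfold NDq_b
  exact (h t).mul (Complex.continuous_conj.measurable.comp (h t'))

end

/-- ND -/
theorem nth_meas {X R M : Type*} [MeasurableSpace X] (S : X → X) (hS : Measurable S)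
    [CommRing R] [AddCommGroup M] [Module R M] [Countable M] (φ : X → (M ≃ₗ[R] M))
    (hφ : ∀ m m' : M, MeasurableSet {x | φ x m = m'}) (α : X → Dual M)
    (hα : Measurable α) (L : X → Submodule R M) (hL : ∀ m : M, MeasurableSet {x | m ∈ L x})
    (A : Set X) (hA : MeasurableSet A) (m : M) (t t' : ℕ) :
    Measurable (nth S φ α L A m t t') := by
  have hd := NDq_aux_d_meas S hS φ hφ m t t'
  have e : nth S φ α L A m t t' = fun z =>
      {x | NDq_d S φ m t t' x ∈ L x}.indicator (fun _ => (1 : ℂ)) z.1 *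
        (NDq_b S φ α A m t t' z.1 * ((z.2 (NDq_d S φ m t t' z.1) : Circle) : ℂ)) := by
    funext z; exact NDq_aux_form S φ α L A m t t' z
  rw [e]
  have hD : MeasurableSet {x | NDq_d S φ m t t' x ∈ L x} :=
    NDq_aux_set' (NDq_d S φ m t t') hd L hL
  exact ((measurable_const.indicator hD).comp measurable_fst).mul
    (((NDq_aux_b_meas S hS φ hφ α hα A hA m t t').comp measurable_fst).mul
      (NDq_aux_ev_meas _ hd))

/-- ND -/
theorem nth_norm {X R M : Type*} [CommRing R] [AddCommGroup M] [Module R M] (S : X → X)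
    (φ : X → (M ≃ₗ[R] M)) (α : X → Dual M) (L : X → Submodule R M) (A : Set X) (m : M)
    (t t' : ℕ) (z : X × Dual M) : ‖nth S φ α L A m t t' z‖ ≤ 1 := by
  rw [NDq_aux_form, norm_mul, norm_mul, Circle.norm_coe, mul_one]
  refine mul_le_one₀ ?_ (norm_nonneg _) (NDq_aux_b_le S φ α A m t t' z.1)
  by_cases hx : z.1 ∈ {x | NDq_d S φ m t t' x ∈ L x}
  · simp [Set.indicator_of_mem hx]
  · simp [Set.indicator_of_notMem hx]

/-- ND -/
theorem nth_approx {X R M : Type*} [MeasurableSpace X] (μ : Measure X)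
    [IsProbabilityMeasure μ] (S : X → X) (hS : MeasurePreserving S μ μ)
    [CommRing R] [AddCommGroup M] [Module R M] [Countable M] (φ : X → (M ≃ₗ[R] M))
    (hφ : ∀ m m' : M, MeasurableSet {x | φ x m = m'}) (α : X → Dual M)
    (hα : Measurable α) (ν : Measure (Dual M)) (hν : IsHaarProb ν) (L : X → Submodule R M)
    (hL : ∀ m : M, MeasurableSet {x | m ∈ L x})
    (A : Set X) (hA : MeasurableSet A) (m : M) (t t' : ℕ) (ε : ℝ) (hε : 0 < ε) :
    ∃ (N : ℕ) (c : Fin N → ℂ) (A' : Fin N → Set X) (m' : Fin N → M),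
      (∀ l, MeasurableSet (A' l)) ∧ (∀ l, ∀ x ∈ A' l, m' l ∈ L x) ∧
      ∫ z, ‖nth S φ α L A m t t' z - ∑ l, c l * ten (A' l) (m' l) z‖ ∂(μ.prod ν) < ε := by
  have := hν.1
  have hSm := hS.measurable
  have hd := NDq_aux_d_meas S hSm φ hφ m t t'
  have hbm := NDq_aux_b_meas S hSm φ hφ α hα A hA m t t'
  have hthm := nth_meas S hSm φ hφ α hα L hL A hA m t t'
  have hV : ∀ f ∈ NDq_E L, Integrable f (μ.prod ν) :=
    fun f hf => NDq_E_int (μ.prod ν) L hf
  have hthi : Integrable (nth S φ α L A m t t') (μ.prod ν) :=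
    Integrable.of_bound hthm.aestronglyMeasurable 1
      (Eventually.of_forall (nth_norm S φ α L A m t t'))
  obtain ⟨j, hj⟩ := Countable.exists_injective_nat M
  -- pieces
  set Dl : M → Set X := fun l => {x | NDq_d S φ m t t' x = l} ∩ {x | l ∈ L x} with hDl
  have hpm : ∀ l : M, MeasurableSet (Dl l) := fun l => (hd l).inter (hL l)
  have hbi : ∀ l : M, Integrable ((Dl l).indicator (NDq_b S φ α A m t t')) μ := fun l =>
    (Integrable.of_bound hbm.aestronglyMeasurable 1
      (Eventually.of_forall (NDq_aux_b_le S φ α A m t t'))).indicator (hpm l)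
  have hpi : ∀ l : M, Integrable (fun z : X × Dual M => (Dl l).indicator
      (NDq_b S φ α A m t t') z.1 * ((z.2 l : Circle) : ℂ)) (μ.prod ν) := by
    intro l
    refine Integrable.of_bound (((hbm.indicator (hpm l)).comp measurable_fst).mul
      ((SP_aux_eval l).comp measurable_snd)).aestronglyMeasurable 1
      (Eventually.of_forall fun z => ?_)
    rw [norm_mul, Circle.norm_coe, mul_one]
    by_cases hx : z.1 ∈ Dl l
    · rw [Set.indicator_of_mem hx]; exact NDq_aux_b_le S φ α A m t t' z.1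
    · rw [Set.indicator_of_notMem hx, norm_zero]; exact zero_le_one
  have hAp : NDq_Ap (μ.prod ν) (NDq_E L) (nth S φ α L A m t t') := by
    refine NDq_aux_lim (μ.prod ν) _ hV hthi fun δ hδ => ?_
    -- the exceptional sets
    set Ex : ℕ → Set X := fun N => {x | NDq_d S φ m t t' x ∈ L x ∧
      NDq_d S φ m t t' x ∈ {l : M | N ≤ j l}} with hEx
    have hExm : ∀ N, MeasurableSet (Ex N) := fun N => NDq_aux_set _ hd L hL _
    have hlim : Tendsto (fun N => μ (Ex N)) atTop (𝓝 (μ (⋂ N, Ex N))) := by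
      refine tendsto_measure_iInter_atTop (fun N => (hExm N).nullMeasurableSet) ?_
        ⟨0, measure_ne_top _ _⟩
      intro N N' hNN x hx
      exact ⟨hx.1, hNN.trans hx.2⟩
    have hempty : (⋂ N, Ex N) = ∅ := by
      ext x
      simp only [Set.mem_iInter, Set.mem_empty_iff_false, iff_false, not_forall]
      refine ⟨j (NDq_d S φ m t t' x) + 1, fun h => ?_⟩
      have h' : j (NDq_d S φ m t t' x) + 1 ≤ j (NDq_d S φ m t t' x) := h.2
      omega
    rw [hempty, measure_empty] at hlim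
    obtain ⟨N, hN⟩ := (hlim.eventually (gt_mem_nhds (ENNReal.ofReal_pos.mpr hδ))).exists
    have hfin : {l : M | j l < N}.Finite :=
      Set.Finite.subset (Set.Finite.preimage hj.injOn (Set.finite_Iio N)) fun l hl => hl
    set F : Finset M := hfin.toFinset with hF
    have hsum := NDq_aux_sum (μ.prod ν) (NDq_E L) hV F
      (fun l z => (Dl l).indicator (NDq_b S φ α A m t t') z.1 * ((z.2 l : Circle) : ℂ))
      (fun l _ => hpi l)
      (fun l _ => NDq_aux_one μ ν L (Dl l) (hpm l) _ (hbi l)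
        (fun x hx => Set.indicator_of_notMem hx _) l (fun x hx => hx.2))
    refine ⟨_, hsum.1, hsum.2, ?_⟩
    have hle : ∀ z : X × Dual M, ‖nth S φ α L A m t t' z -
        ∑ l ∈ F, (Dl l).indicator (NDq_b S φ α A m t t') z.1 * ((z.2 l : Circle) : ℂ)‖ ≤
        (Ex N).indicator (fun _ => (1 : ℝ)) z.1 := by
      intro z
      by_cases hL' : NDq_d S φ m t t' z.1 ∈ L z.1
      · by_cases hjN : j (NDq_d S φ m t t' z.1) < N
        · have hmem : NDq_d S φ m t t' z.1 ∈ F := by
            rw [hF, Set.Finite.mem_toFinset]; exact hjN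
          have e1 : ∑ l ∈ F, (Dl l).indicator
              (NDq_b S φ α A m t t') z.1 * ((z.2 l : Circle) : ℂ) =
              NDq_b S φ α A m t t' z.1 * ((z.2 (NDq_d S φ m t t' z.1) : Circle) : ℂ) := by
            rw [Finset.sum_eq_single (NDq_d S φ m t t' z.1)]
            · rw [Set.indicator_of_mem (show z.1 ∈ Dl (NDq_d S φ m t t' z.1) from ⟨rfl, hL'⟩)]
            · intro l _ hl
              rw [Set.indicator_of_notMem (fun h => hl h.1.symm), zero_mul]
            · intro h; exact absurd hmem h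
          rw [e1, NDq_aux_form, Set.indicator_of_mem (show z.1 ∈
            {x | NDq_d S φ m t t' x ∈ L x} from hL'), one_mul, sub_self, norm_zero]
          exact Set.indicator_nonneg (fun _ _ => zero_le_one) _
        · have e1 : ∑ l ∈ F, (Dl l).indicator
              (NDq_b S φ α A m t t') z.1 * ((z.2 l : Circle) : ℂ) = 0 := by
            refine Finset.sum_eq_zero fun l hl => ?_
            rw [hF, Set.Finite.mem_toFinset] at hl
            rw [Set.indicator_of_notMem (fun h => hjN (by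
              have h' : NDq_d S φ m t t' z.1 = l := h.1
              rw [h']; exact hl)), zero_mul]
          have hin : z.1 ∈ Ex N := ⟨hL', not_lt.1 hjN⟩
          rw [e1, sub_zero, Set.indicator_of_mem hin]
          exact nth_norm S φ α L A m t t' z
      · have e1 : ∑ l ∈ F, (Dl l).indicator
            (NDq_b S φ α A m t t') z.1 * ((z.2 l : Circle) : ℂ) = 0 := by
          refine Finset.sum_eq_zero fun l hl => ?_
          rw [Set.indicator_of_notMem (fun h => hL' (by
            have h' : NDq_d S φ m t t' z.1 = l := h.1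
            rw [h']; exact h.2)), zero_mul]
        rw [e1, NDq_aux_form, Set.indicator_of_notMem (show z.1 ∉
          {x | NDq_d S φ m t t' x ∈ L x} from hL'), zero_mul, sub_zero, norm_zero]
        exact Set.indicator_nonneg (fun _ _ => zero_le_one) _
    have hint : Integrable (fun z : X × Dual M => (Ex N).indicator (fun _ => (1 : ℝ)) z.1)
        (μ.prod ν) :=
      Integrable.of_bound ((measurable_const.indicator (hExm N)).comp
        measurable_fst).aestronglyMeasurable 1 (Eventually.of_forall fun z => by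
          by_cases hx : z.1 ∈ Ex N
          · rw [Set.indicator_of_mem hx]; simp
          · rw [Set.indicator_of_notMem hx]; simp)
    have h5 : ∫ z : X × Dual M, (Ex N).indicator (fun _ => (1 : ℝ)) z.1 ∂(μ.prod ν) =
        μ.real (Ex N) := by
      have hfst : MeasurePreserving (Prod.fst : X × Dual M → X) (μ.prod ν) μ :=
        measurePreserving_fst
      have hm : AEStronglyMeasurable ((Ex N).indicator (fun _ => (1 : ℝ)))
          (Measure.map Prod.fst (μ.prod ν)) :=
        (measurable_const.indicator (hExm N)).aestronglyMeasurable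
      have h6 := integral_map hfst.measurable.aemeasurable hm
      rw [hfst.map_eq] at h6
      rw [← h6, integral_indicator (hExm N)]
      simp [Measure.real]
    refine lt_of_le_of_lt (integral_mono (hthi.sub hsum.1).norm hint hle) ?_
    rw [h5]
    exact (ENNReal.toReal_lt_toReal (measure_ne_top _ _) ENNReal.ofReal_ne_top).mpr hN |>.trans_eq
      (ENNReal.toReal_ofReal hδ.le)
  obtain ⟨f, hf, h⟩ := hAp ε hε
  obtain ⟨N, c, g, hg⟩ := Submodule.mem_span_set'.mp hf
  choose A' m' hA' hm' hAm using fun l => (g l).2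
  refine ⟨N, c, A', m', hA', hm', ?_⟩
  refine lt_of_le_of_lt (le_of_eq ?_) h
  refine integral_congr_ae (Eventually.of_forall fun z => ?_)
  have : f z = ∑ l, c l * ten (A' l) (m' l) z := by
    rw [← hg, Finset.sum_apply]
    refine Finset.sum_congr rfl fun l _ => ?_
    rw [Pi.smul_apply, hAm l, smul_eq_mul]
  simp only [this]

end H567MM.P
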