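import Pool.Agent.H567R2.MQ.Stubs

namespace H567MM.P

open MeasureTheory Filter Topology

theorem NU2q_aux_cfam {X R M : Type*} [MeasurableSpace X] (μ : Measure X) (S : X → X)
    [CommRing R] [AddCommGroup M] [Module R M] (φ : X → (M ≃ₗ[R] M))
    (L : X → Submodule R M) {s : ℕ} (B : Fin s → M → Set X) (f : Fin s → ℕ)
    (hB : ∀ j, CFam μ S φ L (B j) (f j)) :
    CFam μ S φ L (fun m => ⋃ j, B j m) (∑ j, f j) := by
  classical
  refine ⟨fun m => MeasurableSet.iUnion fun j => (hB j).1 m, ?_, ?_, ?_⟩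
  · filter_upwards [ae_all_iff.mpr fun j => (hB j).2.1] with x hx m m' hmm
    simp only [Set.mem_iUnion]
    exact exists_congr fun j => hx j m m' hmm
  · filter_upwards [ae_all_iff.mpr fun j => (hB j).2.2.1] with x hx m
    simp only [Set.mem_iUnion]
    exact exists_congr fun j => hx j m
  · filter_upwards [ae_all_iff.mpr fun j => (hB j).2.2.2] with x hx
    choose Z hZ1 hZ2 using hx
    refine ⟨Finset.univ.biUnion Z, ?_, ?_⟩
    · exact Finset.card_biUnion_le.trans (Finset.sum_le_sum fun j _ => hZ1 j)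
    · intro m hm
      obtain ⟨j, hj⟩ := Set.mem_iUnion.1 hm
      obtain ⟨z, hz, hzm⟩ := hZ2 j m hj
      exact ⟨z, Finset.mem_biUnion.2 ⟨j, Finset.mem_univ j, hz⟩, hzm⟩

theorem nstep {X R M : Type*} [MeasurableSpace X] (μ : Measure X)
    [IsProbabilityMeasure μ] (S : X → X) (hS : MeasurePreserving S μ μ)
    [CommRing R] [IsNoetherianRing R] [AddCommGroup M] [Module R M] [Module.Finite R M]
    [Countable M] (φ : X → (M ≃ₗ[R] M)) (hφ : ∀ m m' : M, MeasurableSet {x | φ x m = m'})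
    (α : X → Dual M) (hα : Measurable α) (ν : Measure (Dual M)) (hν : IsHaarProb ν)
    (hwm : ∀ (A : Set X) (m : M), MeasurableSet A → m ≠ 0 →
      CorrZero (μ.prod ν) (naskew S φ α) (ten A m)) (k : ℕ) (L : X → Submodule R M)
    (hL : IsFld μ S φ L) (hPL : NPL μ ν S φ α k L) (B : M → Set X) (f : ℕ)
    (hB : CFam μ S φ L B f) :
    NPL μ ν S φ α k (fun x => L x ⊔ Submodule.span R {m | x ∈ B m}) := by
  intro A m hA hm ε hε
  by_cases hm0 : m = 0
  · subst hm0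
    exact hPL A 0 hA (fun j x _ => (L x).zero_mem) ε hε
  have hprod : ∏ j, ∫ z, ten (A j) (m j) z ∂(μ.prod ν) = 0 := by
    obtain ⟨j, hj⟩ := Function.ne_iff.mp hm0
    exact Finset.prod_eq_zero (Finset.mem_univ j)
      (ten_integral_ne μ ν hν (A j) (hA j) (m j) hj)
  have hδ : 0 < ε / (4 * ((k : ℝ) + 1)) := by positivity
  obtain ⟨-, h2⟩ := nstep_fld μ S hS φ hφ L hL B f hB
  choose B' f' hB' hBμ using fun j => h2 (m j) _ hδ
  have hCF := NU2q_aux_cfam μ S φ L B' f' hB'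
  set A' : Fin (k + 1) → Set X := fun j => A j ∩ ⋃ i, B' i (m j) with hA'def
  have hA' : ∀ j, MeasurableSet (A' j) := fun j =>
    (hA j).inter (hCF.1 (m j))
  have hAA' : ∀ j, A' j ⊆ A j := fun j => Set.inter_subset_left
  obtain ⟨G, hG⟩ := nstep_a μ S hS φ hφ α hα ν hν hwm k L hL hPL _ _ hCF A' hA' m hm0
    (fun j => Set.inter_subset_right) (ε / 2) (by positivity)
  refine ⟨G, fun n h0 hn => ?_⟩
  rw [hprod, sub_zero]
  have hdval : ∀ j, μ.real (S^[n j] ⁻¹' (A j \ A' j)) ≤ ε / (4 * ((k : ℝ) + 1)) := by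
    intro j
    have h1 : μ.real (S^[n j] ⁻¹' (A j \ A' j)) = μ.real (A j \ A' j) :=
      (hS.iterate (n j)).measureReal_preimage ((hA j).diff (hA' j)).nullMeasurableSet
    rw [h1]
    refine (measureReal_mono ?_ (by finiteness)).trans (hBμ j).le
    intro x hx
    refine ⟨hm j x hx.1, fun hxB => hx.2 ⟨hx.1, Set.mem_iUnion.mpr ⟨j, hxB⟩⟩⟩
  have hdiff : ‖∫ z, ∏ j, ten (A j) (m j) ((naskew S φ α)^[n j] z) ∂(μ.prod ν) -
      ∫ z, ∏ j, ten (A' j) (m j) ((naskew S φ α)^[n j] z) ∂(μ.prod ν)‖ ≤ ε / 4 := by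
    refine (nten_int_sub μ S hS φ hφ α hα ν hν A A' hA hA' hAA' m n).trans ?_
    calc μ.real {x | (∀ j, S^[n j] x ∈ A j) ∧ (∃ j, S^[n j] x ∉ A' j) ∧
        ∑ j, coc S φ (n j) x (m j) = 0}
        ≤ μ.real (⋃ j, S^[n j] ⁻¹' (A j \ A' j)) := by
          refine measureReal_mono ?_ (by finiteness)
          rintro x ⟨hx1, ⟨j, hj⟩, -⟩
          exact Set.mem_iUnion.2 ⟨j, hx1 j, hj⟩
      _ ≤ ∑ j, μ.real (S^[n j] ⁻¹' (A j \ A' j)) := measureReal_iUnion_fintype_le _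
      _ ≤ ∑ _j : Fin (k + 1), ε / (4 * ((k : ℝ) + 1)) := Finset.sum_le_sum fun j _ => hdval j
      _ = ε / 4 := by
          rw [Finset.sum_const, Finset.card_univ, Fintype.card_fin, nsmul_eq_mul]
          push_cast
          field_simp
  have h3 := hG n h0 hn
  calc ‖∫ z, ∏ j, ten (A j) (m j) ((naskew S φ α)^[n j] z) ∂(μ.prod ν)‖
      = ‖(∫ z, ∏ j, ten (A j) (m j) ((naskew S φ α)^[n j] z) ∂(μ.prod ν) -
      ∫ z, ∏ j, ten (A' j) (m j) ((naskew S φ α)^[n j] z) ∂(μ.prod ν)) +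
      ∫ z, ∏ j, ten (A' j) (m j) ((naskew S φ α)^[n j] z) ∂(μ.prod ν)‖ := by rw [sub_add_cancel]
    _ ≤ _ := norm_add_le _ _
    _ < ε / 4 + ε / 2 := by linarith
    _ < ε := by linarith

end H567MM.P
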