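import Pool.Agent.H567R2.MQ.Stubs

/-! Task NV: trivialisation of the quotient bundle. -/

namespace H567MM.P

open MeasureTheory Filter Topology H567MM

section NVq

variable {R M : Type*} [CommRing R] [AddCommGroup M] [Module R M]

theorem NVq_countable_sub [IsNoetherianRing R] [Module.Finite R M] [Countable M] :
    Countable (Submodule R M) := by
  have : Function.Surjective (fun s : Finset M => Submodule.span R (s : Set M)) := by
    intro N
    obtain ⟨s, hs⟩ := (IsNoetherian.noetherian N : N.FG)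
    exact ⟨s, hs⟩
  exact this.countable

theorem NVq_countable_equiv [Module.Finite R M] [Countable M] : Countable (M ≃ₗ[R] M) := by
  obtain ⟨s, hs⟩ := (Module.Finite.fg_top : (⊤ : Submodule R M).FG)
  have : Function.Injective (fun (g : M ≃ₗ[R] M) (i : (s : Set M)) => g i) := by
    intro g g' h
    apply LinearEquiv.toLinearMap_injective
    refine LinearMap.ext_on hs fun x hx => ?_
    exact congrFun h ⟨x, hx⟩
  exact this.countable

open Classical in
/-- the map `M → M / N₀` with kernel `N'` -/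
noncomputable def NVq_Q (N₀ N' : Submodule R M) : M →ₗ[R] (M ⧸ N₀) :=
  if h : Nonempty ((M ⧸ N') ≃ₗ[R] (M ⧸ N₀)) then (h.some : (M ⧸ N') →ₗ[R] (M ⧸ N₀)) ∘ₗ N'.mkQ
  else 0

open Classical in
/-- the induced automorphism -/
noncomputable def NVq_F (N₀ : Submodule R M) (p : Submodule R M × Submodule R M × (M ≃ₗ[R] M)) :
    (M ⧸ N₀) ≃ₗ[R] (M ⧸ N₀) :=
  if h : ∃ e : (M ⧸ N₀) ≃ₗ[R] (M ⧸ N₀), ∀ m, NVq_Q N₀ p.1 (p.2.2 m) = e (NVq_Q N₀ p.2.1 m)
  then h.choose else LinearEquiv.refl R _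

theorem NVq_Q_surj {N₀ N' : Submodule R M} (h : Nonempty ((M ⧸ N') ≃ₗ[R] (M ⧸ N₀))) :
    Function.Surjective (NVq_Q N₀ N') := by
  unfold NVq_Q
  rw [dif_pos h]
  exact h.some.surjective.comp (Submodule.mkQ_surjective N')

theorem NVq_Q_zero {N₀ N' : Submodule R M} (h : Nonempty ((M ⧸ N') ≃ₗ[R] (M ⧸ N₀))) (m : M) :
    NVq_Q N₀ N' m = 0 ↔ m ∈ N' := by
  unfold NVq_Q
  rw [dif_pos h, LinearMap.comp_apply]
  simp

theorem NVq_F_spec {N₀ N' N'' : Submodule R M} {g : M ≃ₗ[R] M}
    (h' : Nonempty ((M ⧸ N') ≃ₗ[R] (M ⧸ N₀))) (h'' : Nonempty ((M ⧸ N'') ≃ₗ[R] (M ⧸ N₀)))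
    (hg : N''.map (g : M →ₗ[R] M) = N') (m : M) :
    NVq_Q N₀ N' (g m) = NVq_F N₀ (N', N'', g) (NVq_Q N₀ N'' m) := by
  have hex : ∃ e : (M ⧸ N₀) ≃ₗ[R] (M ⧸ N₀), ∀ m, NVq_Q N₀ N' (g m) = e (NVq_Q N₀ N'' m) := by
    refine ⟨h''.some.symm.trans ((Submodule.Quotient.equiv N'' N' g hg).trans h'.some),
      fun m => ?_⟩
    unfold NVq_Q
    rw [dif_pos h', dif_pos h'']
    simp
  unfold NVq_F
  rw [dif_pos hex]
  exact hex.choose_spec m

end NVq

theorem triv {X R M : Type*} [MeasurableSpace X] (μ : Measure X)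
    [IsProbabilityMeasure μ] (S : X → X) (hS : Ergodic S μ)
    [CommRing R] [IsNoetherianRing R] [AddCommGroup M] [Module R M] [Module.Finite R M]
    [Countable M] (φ : X → (M ≃ₗ[R] M)) (hφ : ∀ m m' : M, MeasurableSet {x | φ x m = m'})
    (L : X → Submodule R M) (hL : IsFld μ S φ L) :
    ∃ (N₀ : Submodule R M) (φ' : X → ((M ⧸ N₀) ≃ₗ[R] (M ⧸ N₀))) (q : X → (M →ₗ[R] (M ⧸ N₀))),
      (∀ v v' : M ⧸ N₀, MeasurableSet {x | φ' x v = v'}) ∧
      (∀ (m : M) (v : M ⧸ N₀), MeasurableSet {x | q x m = v}) ∧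
      (∀ᵐ x ∂μ, Function.Surjective (q x)) ∧ (∀ᵐ x ∂μ, ∀ m, (q x m = 0 ↔ m ∈ L x)) ∧
      ∀ᵐ x ∂μ, ∀ m, q x (φ x m) = φ' x (q (S x) m) := by
  have := NVq_countable_sub (R := R) (M := M)
  have := NVq_countable_equiv (R := R) (M := M)
  obtain ⟨hLm, hLe⟩ := hL
  have hSm : Measurable S := hS.toMeasurePreserving.measurable
  -- measurability of `L` and `φ`
  have hLN : ∀ N : Submodule R M, MeasurableSet {x | L x = N} := by
    intro N
    have : {x | L x = N} = ⋂ m : M, {x | m ∈ L x ↔ m ∈ N} := by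
      ext x
      simp only [Set.mem_iInter]
      constructor
      · intro h m
        have h' : L x = N := h
        show m ∈ L x ↔ m ∈ N
        rw [h']
      · intro h
        exact SetLike.ext h
    rw [this]
    refine MeasurableSet.iInter fun m => ?_
    by_cases hm : m ∈ N
    · have : {x | m ∈ L x ↔ m ∈ N} = {x | m ∈ L x} := by
        ext x
        show (m ∈ L x ↔ m ∈ N) ↔ m ∈ L x
        simp [hm]
      rw [this]; exact hLm m
    · have : {x | m ∈ L x ↔ m ∈ N} = {x | m ∈ L x}ᶜ := by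
        ext x
        show (m ∈ L x ↔ m ∈ N) ↔ ¬ m ∈ L x
        simp [hm]
      rw [this]; exact (hLm m).compl
  have hφg : ∀ g : M ≃ₗ[R] M, MeasurableSet {x | φ x = g} := by
    intro g
    have : {x | φ x = g} = ⋂ m : M, {x | φ x m = g m} := by
      ext x
      simp only [Set.mem_iInter]
      constructor
      · intro h m
        have h' : φ x = g := h
        show φ x m = g m
        rw [h']
      · intro h
        exact LinearEquiv.ext h
    rw [this]
    exact MeasurableSet.iInter fun m => hφ m (g m)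
  have hLS : ∀ s : Set (Submodule R M), MeasurableSet {x | L x ∈ s} := by
    intro s
    have : {x | L x ∈ s} = ⋃ N ∈ s, {x | L x = N} := by
      ext x
      simp only [Set.mem_iUnion]
      constructor
      · intro h
        exact ⟨L x, h, rfl⟩
      · rintro ⟨N, hN, h⟩
        have h' : L x = N := h
        show L x ∈ s
        rw [h']; exact hN
    rw [this]
    exact MeasurableSet.biUnion s.to_countable fun N _ => hLN N
  -- the isomorphism class
  set U : Submodule R M → Set X := fun N => {x | Nonempty ((M ⧸ L x) ≃ₗ[R] (M ⧸ N))} with hU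
  have hUm : ∀ N, MeasurableSet (U N) := fun N =>
    hLS {N' | Nonempty ((M ⧸ N') ≃ₗ[R] (M ⧸ N))}
  obtain ⟨N₀, hN₀⟩ : ∃ N₀, μ (U N₀) ≠ 0 := by
    by_contra hcon
    push Not at hcon
    have h1 : μ (⋃ N, U N) = 0 := measure_iUnion_null hcon
    have h2 : (⋃ N, U N) = Set.univ := by
      refine Set.eq_univ_of_forall fun x => ?_
      rw [Set.mem_iUnion]
      exact ⟨L x, ⟨LinearEquiv.refl R _⟩⟩
    rw [h2, measure_univ] at h1
    exact one_ne_zero h1
  have hinv : S ⁻¹' (U N₀) =ᵐ[μ] U N₀ := by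
    filter_upwards [hLe] with x hx
    apply propext
    have e := Submodule.Quotient.equiv (L (S x)) (L x) (φ x) hx
    constructor
    · rintro ⟨f⟩
      exact ⟨e.symm.trans f⟩
    · rintro ⟨f⟩
      exact ⟨e.trans f⟩
  have hfull : ∀ᵐ x ∂μ, x ∈ U N₀ := by
    rcases hS.quasiErgodic.ae_empty_or_univ₀ (hUm N₀).nullMeasurableSet hinv with h | h
    · exfalso
      apply hN₀
      rw [measure_congr h, measure_empty]
    · filter_upwards [h] with x hx
      have : (x ∈ U N₀) = (x ∈ Set.univ) := hx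
      rw [this]; trivial
  have hfullS : ∀ᵐ x ∂μ, S x ∈ U N₀ :=
    hS.toMeasurePreserving.quasiMeasurePreserving.ae hfull
  refine ⟨N₀, fun x => NVq_F N₀ (L x, L (S x), φ x), fun x => NVq_Q N₀ (L x), ?_, ?_, ?_, ?_, ?_⟩
  · intro v v'
    have : {x | NVq_F N₀ (L x, L (S x), φ x) v = v'} =
        ⋃ p ∈ {p : Submodule R M × Submodule R M × (M ≃ₗ[R] M) | NVq_F N₀ p v = v'},
          {x | L x = p.1} ∩ (S ⁻¹' {x | L x = p.2.1} ∩ {x | φ x = p.2.2}) := by
      ext x
      simp only [Set.mem_iUnion]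
      constructor
      · intro h
        exact ⟨(L x, L (S x), φ x), h, rfl, rfl, rfl⟩
      · rintro ⟨⟨N, N', g⟩, hp, h1, h2, h3⟩
        have h1' : L x = N := h1
        have h2' : L (S x) = N' := h2
        have h3' : φ x = g := h3
        show NVq_F N₀ (L x, L (S x), φ x) v = v'
        rw [h1', h2', h3']; exact hp
    rw [this]
    exact MeasurableSet.biUnion (Set.to_countable _) fun p _ =>
      (hLN _).inter ((hSm (hLN _)).inter (hφg _))
  · intro m v
    exact hLS {N | NVq_Q N₀ N m = v}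
  · filter_upwards [hfull] with x hx
    exact NVq_Q_surj hx
  · filter_upwards [hfull] with x hx
    exact NVq_Q_zero hx
  · filter_upwards [hfull, hfullS, hLe] with x hx hSx hx2 m
    exact NVq_F_spec hx hSx hx2 m

end H567MM.P
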