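import Pool.Agent.H567R2.MQ.Stubs

/-! Task NX: bottom and maximal field. -/

set_option autoImplicit false

namespace H567MM.P

open MeasureTheory Filter Topology

theorem NXq_aux_ten {X M : Type*} [AddCommGroup M] (A : Set X) (m : M)
    (h : ∀ x ∈ A, m = 0) : (ten A m : X × Dual M → ℂ) = ten A (0 : M) := by
  funext z
  unfold ten
  by_cases hz : z.1 ∈ A
  · rw [h _ hz]
  · rw [Set.indicator_of_notMem hz, zero_mul, zero_mul]

theorem npl_bot {X R M : Type*} [MeasurableSpace X] (μ : Measure X)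
    [IsProbabilityMeasure μ] (S : X → X) (hS : MeasurePreserving S μ μ)
    [CommRing R] [AddCommGroup M] [Module R M] [Countable M] (φ : X → (M ≃ₗ[R] M))
    (α : X → Dual M) (ν : Measure (Dual M)) (hν : IsHaarProb ν) (k : ℕ)
    (hk : MixOrd μ S k) : NPL μ ν S φ α k (fun _ => (⊥ : Submodule R M)) := by
  intro A m hA hm ε hε
  obtain ⟨G, hG⟩ := hk A hA ε hε
  refine ⟨G, fun n h0 hn => ?_⟩
  have hm0 : ∀ j, (ten (A j) (m j) : X × Dual M → ℂ) = ten (A j) (0 : M) := fun j =>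
    NXq_aux_ten (A j) (m j) fun x hx => (Submodule.mem_bot R).1 (hm j x hx)
  simp only [hm0]
  rw [nten_int_zero μ S hS φ α ν hν A hA n]
  simp only [ten_integral_zero μ ν hν _ (hA _)]
  rw [← Complex.ofReal_prod, ← Complex.ofReal_sub, Complex.norm_real, Real.norm_eq_abs]
  exact hG n h0 hn

theorem NXq_aux_bot {X R M : Type*} [MeasurableSpace X] (μ : Measure X) (S : X → X)
    [CommRing R] [AddCommGroup M] [Module R M] (φ : X → (M ≃ₗ[R] M)) :
    IsFld μ S φ (fun _ => (⊥ : Submodule R M)) := by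
  refine ⟨fun m => ?_, ?_⟩
  · by_cases h : m ∈ (⊥ : Submodule R M)
    · simp [h]
    · simp [h]
  · exact Eventually.of_forall fun x => Submodule.map_bot _

theorem NXq_aux_ne {X R M : Type*} [MeasurableSpace X] (μ : Measure X)
    [IsProbabilityMeasure μ] (S : X → X) (hS : Ergodic S μ)
    [CommRing R] [AddCommGroup M] [Module R M] [Countable M] (φ : X → (M ≃ₗ[R] M))
    (L L' : X → Submodule R M) (hL : IsFld μ S φ L) (hL' : IsFld μ S φ L')
    (hne : ¬ ∀ᵐ x ∂μ, L' x = L x) : ∀ᵐ x ∂μ, L' x ≠ L x := by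
  set E : Set X := {x | L' x = L x} with hE
  have hEm : MeasurableSet E := by
    have e1 : E = ⋂ m : M, {x | m ∈ L' x ↔ m ∈ L x} := by
      ext x
      simp only [hE, Set.mem_ofPred_eq, Set.mem_iInter]
      exact SetLike.ext_iff
    rw [e1]
    refine MeasurableSet.iInter fun m => ?_
    exact (hL'.1 m).iff (hL.1 m)
  have hinv : S ⁻¹' E =ᵐ[μ] E := by
    filter_upwards [hL.2, hL'.2] with x h1 h2
    have hinj : Function.Injective (Submodule.map (φ x : M →ₗ[R] M)) :=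
      Submodule.map_injective_of_injective (φ x).injective
    apply propext
    show L' (S x) = L (S x) ↔ L' x = L x
    rw [← h1, ← h2]
    exact hinj.eq_iff.symm
  rcases hS.quasiErgodic.ae_mem_or_ae_notMem₀ hEm.nullMeasurableSet hinv with h | h
  · exact absurd h hne
  · exact h

theorem exists_max_fld {X R M : Type*} [MeasurableSpace X] (μ : Measure X)
    [IsProbabilityMeasure μ] (S : X → X) (hS : Ergodic S μ)
    [CommRing R] [IsNoetherianRing R] [AddCommGroup M] [Module R M] [Module.Finite R M]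
    [Countable M] (φ : X → (M ≃ₗ[R] M)) (hφ : ∀ m m' : M, MeasurableSet {x | φ x m = m'})
    (α : X → Dual M) (ν : Measure (Dual M)) (k : ℕ)
    (h0 : NPL μ ν S φ α k (fun _ => (⊥ : Submodule R M))) :
    ∃ L : X → Submodule R M, IsFld μ S φ L ∧ NPL μ ν S φ α k L ∧
      ∀ L' : X → Submodule R M, IsFld μ S φ L' → NPL μ ν S φ α k L' →
        (∀ᵐ x ∂μ, L x ≤ L' x) → ∀ᵐ x ∂μ, L' x = L x := by
  by_contra hcon
  push Not at hcon
  let T : Type _ := {L : X → Submodule R M // IsFld μ S φ L ∧ NPL μ ν S φ α k L}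
  have hstep : ∀ L : T, ∃ L' : T, (∀ᵐ x ∂μ, L.1 x ≤ L'.1 x) ∧ ∀ᵐ x ∂μ, L'.1 x ≠ L.1 x := by
    intro L
    obtain ⟨L', h1, h2, h3, h4⟩ := hcon L.1 L.2.1 L.2.2
    refine ⟨⟨L', h1, h2⟩, h3, NXq_aux_ne μ S hS φ L.1 L' L.2.1 h1 ?_⟩
    intro h5
    exact h4 (h5.mono fun x hx => not_not_intro hx)
  choose nx hnx1 hnx2 using hstep
  let L : ℕ → T := fun i => nx^[i] ⟨fun _ => ⊥, NXq_aux_bot μ S φ, h0⟩
  have hL : ∀ i, L (i + 1) = nx (L i) := fun i => Function.iterate_succ_apply' _ _ _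
  have h1 : ∀ᵐ x ∂μ, ∀ i, (L i).1 x < (L (i + 1)).1 x := by
    rw [ae_all_iff]
    intro i
    rw [hL]
    filter_upwards [hnx1 (L i), hnx2 (L i)] with x h2 h3
    exact lt_of_le_of_ne h2 h3.symm
  obtain ⟨x, hx⟩ := h1.exists
  have : IsNoetherian R M := isNoetherian_of_isNoetherianRing_of_finite R M
  exact not_strictMono_of_wellFoundedGT (fun i => (L i).1 x) (strictMono_nat_of_lt_succ hx)

end H567MM.P
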