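import Pool.Agent.H567R2.MO.Stubs
import Pool.Agent.H567R2.MQ.Defs

/-! Stubs (each is a task, see table h567q_tasks). -/

namespace H567MM

open MeasureTheory Filter Topology

/-! ### NA: iterates -/

theorem naskew_iterate {X R M : Type*} [CommRing R] [AddCommGroup M] [Module R M] (S : X → X)
    (φ : X → (M ≃ₗ[R] M)) (α : X → Dual M) (n : ℕ) (x : X) (y : Dual M) :
    (naskew S φ α)^[n] (x, y) = (S^[n] x, nac S φ α n x * nact (coc S φ n x) y) := by sorry
theorem nac_measurable {X R M : Type*} [MeasurableSpace X] [CommRing R] [AddCommGroup M]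
    [Module R M] [Countable M] (S : X → X) (hS : Measurable S) (φ : X → (M ≃ₗ[R] M))
    (hφ : ∀ m m' : M, MeasurableSet {x | φ x m = m'}) (α : X → Dual M)
    (hα : Measurable α) (n : ℕ) : Measurable (nac S φ α n) := by sorry

/-! ### NB: measure preservation -/

theorem naskew_mp {X R M : Type*} [MeasurableSpace X] (μ : Measure X)
    [IsProbabilityMeasure μ] (S : X → X) (hS : MeasurePreserving S μ μ)
    [CommRing R] [AddCommGroup M] [Module R M] [Countable M] (φ : X → (M ≃ₗ[R] M))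
    (hφ : ∀ m m' : M, MeasurableSet {x | φ x m = m'}) (α : X → Dual M)
    (hα : Measurable α) (ν : Measure (Dual M)) (hν : IsHaarProb ν) :
    MeasurePreserving (naskew S φ α) (μ.prod ν) (μ.prod ν) := by sorry

/-! ### NC: integrals of products of tensor functions -/

theorem nten_int_le {X R M : Type*} [MeasurableSpace X] (μ : Measure X)
    [IsProbabilityMeasure μ] (S : X → X) (hS : MeasurePreserving S μ μ)
    [CommRing R] [AddCommGroup M] [Module R M] [Countable M] (φ : X → (M ≃ₗ[R] M))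
    (hφ : ∀ m m' : M, MeasurableSet {x | φ x m = m'}) (α : X → Dual M)
    (hα : Measurable α) (ν : Measure (Dual M)) (hν : IsHaarProb ν) {s : ℕ}
    (A : Fin s → Set X) (hA : ∀ j, MeasurableSet (A j)) (m : Fin s → M) (n : Fin s → ℕ) :
    ‖∫ z, ∏ j, ten (A j) (m j) ((naskew S φ α)^[n j] z) ∂(μ.prod ν)‖ ≤
      μ.real {x | (∀ j, S^[n j] x ∈ A j) ∧ ∑ j, coc S φ (n j) x (m j) = 0} := by sorry
theorem nten_int_sub {X R M : Type*} [MeasurableSpace X] (μ : Measure X)
    [IsProbabilityMeasure μ] (S : X → X) (hS : MeasurePreserving S μ μ)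
    [CommRing R] [AddCommGroup M] [Module R M] [Countable M] (φ : X → (M ≃ₗ[R] M))
    (hφ : ∀ m m' : M, MeasurableSet {x | φ x m = m'}) (α : X → Dual M)
    (hα : Measurable α) (ν : Measure (Dual M)) (hν : IsHaarProb ν) {s : ℕ}
    (A A' : Fin s → Set X) (hA : ∀ j, MeasurableSet (A j)) (hA' : ∀ j, MeasurableSet (A' j))
    (hsub : ∀ j, A' j ⊆ A j) (m : Fin s → M) (n : Fin s → ℕ) :
    ‖∫ z, ∏ j, ten (A j) (m j) ((naskew S φ α)^[n j] z) ∂(μ.prod ν) -
      ∫ z, ∏ j, ten (A' j) (m j) ((naskew S φ α)^[n j] z) ∂(μ.prod ν)‖ ≤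
      μ.real {x | (∀ j, S^[n j] x ∈ A j) ∧ (∃ j, S^[n j] x ∉ A' j) ∧
        ∑ j, coc S φ (n j) x (m j) = 0} := by sorry
theorem nten_int_zero {X R M : Type*} [MeasurableSpace X] (μ : Measure X)
    [IsProbabilityMeasure μ] (S : X → X) (hS : MeasurePreserving S μ μ)
    [CommRing R] [AddCommGroup M] [Module R M] [Countable M] (φ : X → (M ≃ₗ[R] M))
    (α : X → Dual M) (ν : Measure (Dual M)) (hν : IsHaarProb ν) {s : ℕ}
    (A : Fin s → Set X) (hA : ∀ j, MeasurableSet (A j)) (n : Fin s → ℕ) :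
    ∫ z, ∏ j, ten (A j) (0 : M) ((naskew S φ α)^[n j] z) ∂(μ.prod ν) =
      ((μ.real (⋂ j, S^[n j] ⁻¹' A j) : ℝ) : ℂ) := by sorry

/-! ### ND: the functions `nth` -/

theorem nth_meas {X R M : Type*} [MeasurableSpace X] (S : X → X) (hS : Measurable S)
    [CommRing R] [AddCommGroup M] [Module R M] [Countable M] (φ : X → (M ≃ₗ[R] M))
    (hφ : ∀ m m' : M, MeasurableSet {x | φ x m = m'}) (α : X → Dual M)
    (hα : Measurable α) (L : X → Submodule R M) (hL : ∀ m : M, MeasurableSet {x | m ∈ L x})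
    (A : Set X) (hA : MeasurableSet A) (m : M) (t t' : ℕ) :
    Measurable (nth S φ α L A m t t') := by sorry
theorem nth_norm {X R M : Type*} [CommRing R] [AddCommGroup M] [Module R M] (S : X → X)
    (φ : X → (M ≃ₗ[R] M)) (α : X → Dual M) (L : X → Submodule R M) (A : Set X) (m : M)
    (t t' : ℕ) (z : X × Dual M) : ‖nth S φ α L A m t t' z‖ ≤ 1 := by sorry
theorem nth_approx {X R M : Type*} [MeasurableSpace X] (μ : Measure X)
    [IsProbabilityMeasure μ] (S : X → X) (hS : MeasurePreserving S μ μ)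
    [CommRing R] [AddCommGroup M] [Module R M] [Countable M] (φ : X → (M ≃ₗ[R] M))
    (hφ : ∀ m m' : M, MeasurableSet {x | φ x m = m'}) (α : X → Dual M)
    (hα : Measurable α) (ν : Measure (Dual M)) (hν : IsHaarProb ν) (L : X → Submodule R M)
    (hL : ∀ m : M, MeasurableSet {x | m ∈ L x})
    (A : Set X) (hA : MeasurableSet A) (m : M) (t t' : ℕ) (ε : ℝ) (hε : 0 < ε) :
    ∃ (N : ℕ) (c : Fin N → ℂ) (A' : Fin N → Set X) (m' : Fin N → M),
      (∀ l, MeasurableSet (A' l)) ∧ (∀ l, ∀ x ∈ A' l, m' l ∈ L x) ∧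
      ∫ z, ‖nth S φ α L A m t t' z - ∑ l, c l * ten (A' l) (m' l) z‖ ∂(μ.prod ν) < ε := by sorry

/-! ### NF: the integral of `nth` -/

theorem nth_integral {X R M : Type*} [MeasurableSpace X] (μ : Measure X)
    [IsProbabilityMeasure μ] (S : X → X) (hS : MeasurePreserving S μ μ)
    [CommRing R] [AddCommGroup M] [Module R M] [Countable M] (φ : X → (M ≃ₗ[R] M))
    (hφ : ∀ m m' : M, MeasurableSet {x | φ x m = m'}) (α : X → Dual M)
    (hα : Measurable α) (ν : Measure (Dual M)) (hν : IsHaarProb ν) (L : X → Submodule R M)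
    (hL : ∀ m : M, MeasurableSet {x | m ∈ L x})
    (A : Set X) (hA : MeasurableSet A) (m : M) (t t' : ℕ) :
    ∫ z, nth S φ α L A m t t' z ∂(μ.prod ν) =
      ∫ z, ten A m ((naskew S φ α)^[t] z) *
        (starRingEnd ℂ) (ten A m ((naskew S φ α)^[t'] z)) ∂(μ.prod ν) := by sorry

/-! ### NK: the key inequality -/

theorem nkey_ineq {X R M : Type*} [MeasurableSpace X] (μ : Measure X)
    [IsProbabilityMeasure μ] (S : X → X) (hS : MeasurePreserving S μ μ)
    [CommRing R] [AddCommGroup M] [Module R M] [Countable M] (φ : X → (M ≃ₗ[R] M))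
    (hφ : ∀ m m' : M, MeasurableSet {x | φ x m = m'}) (α : X → Dual M)
    (hα : Measurable α) (ν : Measure (Dual M)) (hν : IsHaarProb ν) (L : X → Submodule R M)
    (hL : ∀ m : M, MeasurableSet {x | m ∈ L x}) (B : M → Set X) (f : ℕ)
    (hB : CFam μ S φ L B f) {s : ℕ} (A : Fin s → Set X)
    (hA : ∀ j, MeasurableSet (A j)) (m : Fin s → M) (hAB : ∀ j, A j ⊆ B (m j))
    (n : Fin s → ℕ) (N : ℕ) :
    ‖∫ z, ∏ j, ten (A j) (m j) ((naskew S φ α)^[n j] z) ∂(μ.prod ν)‖ ^ 2 * (N : ℝ) ^ 2 ≤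
      (f : ℝ) ^ s * ‖∑ t ∈ Finset.range N, ∑ t' ∈ Finset.range N,
        ∫ z, ∏ j, nth S φ α L (A j) (m j) t t' ((naskew S φ α)^[n j] z) ∂(μ.prod ν)‖ := by sorry

/-! ### NS, NU: the step -/

/-- NS -/
theorem nstep_a {X R M : Type*} [MeasurableSpace X] (μ : Measure X)
    [IsProbabilityMeasure μ] (S : X → X) (hS : MeasurePreserving S μ μ)
    [CommRing R] [AddCommGroup M] [Module R M] [Countable M] (φ : X → (M ≃ₗ[R] M))
    (hφ : ∀ m m' : M, MeasurableSet {x | φ x m = m'}) (α : X → Dual M)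
    (hα : Measurable α) (ν : Measure (Dual M)) (hν : IsHaarProb ν)
    (hwm : ∀ (A : Set X) (m : M), MeasurableSet A → m ≠ 0 →
      CorrZero (μ.prod ν) (naskew S φ α) (ten A m)) (k : ℕ) (L : X → Submodule R M)
    (hL : IsFld μ S φ L) (hPL : NPL μ ν S φ α k L) (B : M → Set X) (f : ℕ)
    (hB : CFam μ S φ L B f) (A : Fin (k + 1) → Set X)
    (hA : ∀ j, MeasurableSet (A j)) (m : Fin (k + 1) → M) (hm : m ≠ 0)
    (hAB : ∀ j, A j ⊆ B (m j)) (ε : ℝ) (hε : 0 < ε) :
    ∃ G : ℕ, ∀ n : Fin (k + 1) → ℕ, n 0 = 0 → (∀ j : Fin k, n j.castSucc + G ≤ n j.succ) →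
      ‖∫ z, ∏ j, ten (A j) (m j) ((naskew S φ α)^[n j] z) ∂(μ.prod ν)‖ < ε := by sorry
/-- NU -/
theorem nstep_fld {X R M : Type*} [MeasurableSpace X] (μ : Measure X)
    [IsProbabilityMeasure μ] (S : X → X) (hS : MeasurePreserving S μ μ)
    [CommRing R] [IsNoetherianRing R] [AddCommGroup M] [Module R M] [Module.Finite R M]
    [Countable M] (φ : X → (M ≃ₗ[R] M)) (hφ : ∀ m m' : M, MeasurableSet {x | φ x m = m'})
    (L : X → Submodule R M) (hL : IsFld μ S φ L) (B : M → Set X) (f : ℕ)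
    (hB : CFam μ S φ L B f) :
    IsFld μ S φ (fun x => L x ⊔ Submodule.span R {m | x ∈ B m}) ∧
    ∀ (m : M) (ε : ℝ), 0 < ε → ∃ (B' : M → Set X) (f' : ℕ), CFam μ S φ L B' f' ∧
      μ.real {x | m ∈ L x ⊔ Submodule.span R {m | x ∈ B m} ∧ x ∉ B' m} < ε := by sorry
/-- NU2 -/
theorem nstep {X R M : Type*} [MeasurableSpace X] (μ : Measure X)
    [IsProbabilityMeasure μ] (S : X → X) (hS : MeasurePreserving S μ μ)
    [CommRing R] [IsNoetherianRing R] [AddCommGroup M] [Module R M] [Module.Finite R M]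
    [Countable M] (φ : X → (M ≃ₗ[R] M)) (hφ : ∀ m m' : M, MeasurableSet {x | φ x m = m'})
    (α : X → Dual M) (hα : Measurable α) (ν : Measure (Dual M)) (hν : IsHaarProb ν)
    (hwm : ∀ (A : Set X) (m : M), MeasurableSet A → m ≠ 0 →
      CorrZero (μ.prod ν) (naskew S φ α) (ten A m)) (k : ℕ) (L : X → Submodule R M)
    (hL : IsFld μ S φ L) (hPL : NPL μ ν S φ α k L) (B : M → Set X) (f : ℕ)
    (hB : CFam μ S φ L B f) :
    NPL μ ν S φ α k (fun x => L x ⊔ Submodule.span R {m | x ∈ B m}) := by sorry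

/-! ### NX: bottom and maximal field -/

theorem npl_bot {X R M : Type*} [MeasurableSpace X] (μ : Measure X)
    [IsProbabilityMeasure μ] (S : X → X) (hS : MeasurePreserving S μ μ)
    [CommRing R] [AddCommGroup M] [Module R M] [Countable M] (φ : X → (M ≃ₗ[R] M))
    (α : X → Dual M) (ν : Measure (Dual M)) (hν : IsHaarProb ν) (k : ℕ)
    (hk : MixOrd μ S k) : NPL μ ν S φ α k (fun _ => (⊥ : Submodule R M)) := by sorry
theorem exists_max_fld {X R M : Type*} [MeasurableSpace X] (μ : Measure X)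
    [IsProbabilityMeasure μ] (S : X → X) (hS : Ergodic S μ)
    [CommRing R] [IsNoetherianRing R] [AddCommGroup M] [Module R M] [Module.Finite R M]
    [Countable M] (φ : X → (M ≃ₗ[R] M)) (hφ : ∀ m m' : M, MeasurableSet {x | φ x m = m'})
    (α : X → Dual M) (ν : Measure (Dual M)) (k : ℕ)
    (h0 : NPL μ ν S φ α k (fun _ => (⊥ : Submodule R M))) :
    ∃ L : X → Submodule R M, IsFld μ S φ L ∧ NPL μ ν S φ α k L ∧
      ∀ L' : X → Submodule R M, IsFld μ S φ L' → NPL μ ν S φ α k L' →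
        (∀ᵐ x ∂μ, L x ≤ L' x) → ∀ᵐ x ∂μ, L' x = L x := by sorry

/-! ### NV: trivialisation of the quotient bundle -/

theorem triv {X R M : Type*} [MeasurableSpace X] (μ : Measure X)
    [IsProbabilityMeasure μ] (S : X → X) (hS : Ergodic S μ)
    [CommRing R] [IsNoetherianRing R] [AddCommGroup M] [Module R M] [Module.Finite R M]
    [Countable M] (φ : X → (M ≃ₗ[R] M)) (hφ : ∀ m m' : M, MeasurableSet {x | φ x m = m'})
    (L : X → Submodule R M) (hL : IsFld μ S φ L) :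
    ∃ (N₀ : Submodule R M) (φ' : X → ((M ⧸ N₀) ≃ₗ[R] (M ⧸ N₀))) (q : X → (M →ₗ[R] (M ⧸ N₀))),
      (∀ v v' : M ⧸ N₀, MeasurableSet {x | φ' x v = v'}) ∧
      (∀ (m : M) (v : M ⧸ N₀), MeasurableSet {x | q x m = v}) ∧
      (∀ᵐ x ∂μ, Function.Surjective (q x)) ∧ (∀ᵐ x ∂μ, ∀ m, (q x m = 0 ↔ m ∈ L x)) ∧
      ∀ᵐ x ∂μ, ∀ m, q x (φ x m) = φ' x (q (S x) m) := by sorry

/-! ### NW: recurrent elements give families -/

theorem nrec_fam {X R M : Type*} [MeasurableSpace X] (μ : Measure X)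
    [IsProbabilityMeasure μ] (S : X → X) (hS : Ergodic S μ)
    [CommRing R] [AddCommGroup M] [Module R M] [Countable M] (φ : X → (M ≃ₗ[R] M))
    (hφ : ∀ m m' : M, MeasurableSet {x | φ x m = m'}) (m : M) (h : ¬ NTrans μ S φ m) :
    ∃ (B : M → Set X) (f : ℕ), (∀ m', MeasurableSet (B m')) ∧
      (∀ᵐ x ∂μ, ∀ m', (x ∈ B (φ x m') ↔ S x ∈ B m')) ∧
      (∀ᵐ x ∂μ, {m' | x ∈ B m'}.encard ≤ f) ∧ μ (B m) ≠ 0 := by sorry

/-! ### NTP: the top -/

theorem npl_top {X R M : Type*} [MeasurableSpace X] (μ : Measure X)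
    [IsProbabilityMeasure μ] (S : X → X) (hS : MeasurePreserving S μ μ) (hmix : MixOrd μ S 1)
    [CommRing R] [IsNoetherianRing R] [AddCommGroup M] [Module R M] [Module.Finite R M]
    [Countable M] (φ : X → (M ≃ₗ[R] M)) (hφ : ∀ m m' : M, MeasurableSet {x | φ x m = m'})
    (α : X → Dual M) (hα : Measurable α) (ν : Measure (Dual M)) (hν : IsHaarProb ν) (k : ℕ)
    (hk : MixOrd μ S k) (L : X → Submodule R M) (hL : IsFld μ S φ L)
    (hPL : NPL μ ν S φ α k L)
    (hno : ∀ (B : M → Set X) (f : ℕ), CFam μ S φ L B f → ∀ᵐ x ∂μ, ∀ m, x ∈ B m → m ∈ L x) :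
    NPL μ ν S φ α k (fun _ => (⊤ : Submodule R M)) := by sorry

/-! ### M4: the result -/

theorem main4 {X R M : Type*} [MeasurableSpace X] (μ : Measure X)
    [IsProbabilityMeasure μ] (S : X → X) (hS : MeasurePreserving S μ μ)
    [CommRing R] [IsNoetherianRing R] [AddCommGroup M] [Module R M] [Module.Finite R M]
    [Countable M] (φ : X → (M ≃ₗ[R] M)) (hφ : ∀ m m' : M, MeasurableSet {x | φ x m = m'})
    (α : X → Dual M) (hα : Measurable α)
    (ν : Measure (Dual M)) (hν : IsHaarProb ν) (k : ℕ) (hk : MixOrd μ S k)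
    (h : Ergodic (Prod.map (naskew S φ α) (naskew S φ α)) ((μ.prod ν).prod (μ.prod ν)) ∨
      Ergodic (nskew S φ) (μ.prod ν)) : MixOrd (μ.prod ν) (naskew S φ α) k := by sorry

end H567MM
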